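import Mathlib
import Pool.Agent.Helper1.BalanceDefs

set_option autoImplicit false

namespace Pool.Agent.Wit

open Pool.Agent.Helper1.Balance

/-- `δ_w(N)`: the least balance constant of the posets of width `w` with at most `N` elements -/
noncomputable def deltaN (w N : ℕ) : ℝ :=
  sInf {d : ℝ | ∃ (n : ℕ) (r : Fin n → Fin n → Prop),
    n ≤ N ∧ IsPoset r ∧ HasWidth r w ∧ d = balance r}

/-- `K_w = exp (exp (C (log (w + 3))^C))` -/
noncomputable def KK (C : ℝ) (w : ℕ) : ℝ :=
  Real.exp (Real.exp (C * (Real.log ((w : ℝ) + 3)) ^ C))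

end Pool.Agent.Wit
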