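import Pool.Agent.Wit.Num
import Pool.Agent.Wit.Defs
import Pool.Agent.KSR.Final
import Pool.Agent.T1K.Done

set_option autoImplicit false

/-!
# Small posets near the infimum
-/

namespace Pool.Agent.Wit

open Finset Pool.Agent.Helper1.Balance

theorem expo {D : ℕ} {x : ℝ} (hx : 2 ^ 16 ≤ x) (hD : (D : ℝ) ≤ x) :
    (((4 * D + 4) ^ (2 * D + 6) : ℕ) : ℝ) ≤ Real.exp (x ^ 2) := by
  have hx0 : 0 < x := by linarith
  have hD0 : (0 : ℝ) ≤ D := Nat.cast_nonneg D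
  push_cast
  have h1 : (4 * (D : ℝ) + 4) ^ (2 * D + 6) =
      Real.exp (((2 * D + 6 : ℕ) : ℝ) * Real.log (4 * (D : ℝ) + 4)) := by
    rw [Real.exp_nat_mul, Real.exp_log (by linarith)]
  rw [h1]
  apply Real.exp_le_exp.2
  have h2 : Real.log (4 * (D : ℝ) + 4) ≤ x / 50 := by
    have h3 : Real.log (4 * (D : ℝ) + 4) ≤ Real.log (5 * x) :=
      Real.log_le_log (by linarith) (by linarith)
    have h4 : Real.sqrt (5 * x) ≤ x / 100 := by
      rw [Real.sqrt_le_left (by linarith)]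
      nlinarith
    have h5 : Real.log (Real.sqrt (5 * x)) ≤ Real.sqrt (5 * x) - 1 :=
      Real.log_le_sub_one_of_pos (Real.sqrt_pos.2 (by linarith))
    rw [Real.log_sqrt (by linarith)] at h5
    linarith
  have h3 : 0 ≤ Real.log (4 * (D : ℝ) + 4) := Real.log_nonneg (by linarith)
  push_cast
  calc (2 * (D : ℝ) + 6) * Real.log (4 * (D : ℝ) + 4) ≤ (3 * x) * (x / 50) :=
        mul_le_mul (by linarith) h2 h3 (by linarith)
    _ ≤ x ^ 2 := by nlinarith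

/-- **Posets with balance constant at most `1/2 - ε`.** -/
theorem eps_version : ∃ C : ℝ, 1 ≤ C ∧ ∀ ε η : ℝ, 0 < ε → ε ≤ 1 / 2 → 0 < η → η ≤ 1 / 2 →
    ∀ (n w : ℕ) (r : Fin n → Fin n → Prop), IsPoset r → HasWidth r w →
    balance r ≤ 1 / 2 - ε → ∃ (m : ℕ) (r' : Fin m → Fin m → Prop), IsPoset r' ∧
      HasWidth r' w ∧ m ≤ n ∧ (m : ℝ) ≤ (1 / η) ^ (Real.exp ((1 / ε) ^ (C / ε ^ 4))) ∧
      |balance r' - balance r| ≤ η := by
  obtain ⟨C, hC, h⟩ := Pool.Agent.KSR.unb_bound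
  refine ⟨2 * C, by linarith, ?_⟩
  intro ε η hε hε2 hη hη2 n w r hr hw hb
  have hU := Pool.Agent.Helper11.KSStruct.unb_of_balance r hr hε hb
  rw [min_eq_left hε2] at hU
  obtain ⟨x, hx⟩ : ∃ x : ℝ, x = (1 / ε) ^ (C / ε ^ 4) := ⟨_, rfl⟩
  have hD := (h ε hε hε2 r hr hU).2
  rw [← hx] at hD
  have hb2 : 2 ≤ 1 / ε := by
    rw [le_div_iff₀ hε]; linarith
  have hb0 : 0 < 1 / ε := by positivity
  have hε4p : 0 < ε ^ 4 := by positivity
  have hε4 : ε ^ 4 ≤ 1 / 16 := by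
    calc ε ^ 4 ≤ (1 / 2) ^ 4 := pow_le_pow_left₀ hε.le hε2 4
      _ = 1 / 16 := by norm_num
  have hx16 : 2 ^ 16 ≤ x := by
    have h1 : (16 : ℝ) ≤ C / ε ^ 4 := by
      rw [le_div_iff₀ hε4p]; linarith
    rw [hx]
    calc (2 : ℝ) ^ 16 ≤ (1 / ε) ^ 16 := pow_le_pow_left₀ (by norm_num) hb2 16
      _ = (1 / ε) ^ (16 : ℝ) := by
          rw [← Real.rpow_natCast]; norm_num
      _ ≤ _ := Real.rpow_le_rpow_of_exponent_le (by linarith) h1
  have hx0 : 0 ≤ x := by linarith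
  have hxx : (1 / ε) ^ (2 * C / ε ^ 4) = x ^ 2 := by
    rw [hx]
    have e0 : ((1 / ε) ^ (C / ε ^ 4)) ^ 2 = ((1 / ε) ^ (C / ε ^ 4)) ^ ((2 : ℕ) : ℝ) :=
      (Real.rpow_natCast _ _).symm
    rw [e0, ← Real.rpow_mul hb0.le]
    congr 1
    push_cast
    ring
  have hD2 : ∀ y, Nat.card {z : Fin n // ¬ r y z ∧ ¬ r z y} ≤ ⌊x⌋₊ :=
    fun y => Nat.le_floor (hD y)
  obtain ⟨m, r', h1, h2, h3, h4, h5⟩ := thin r hr hD2 hw hη hη2
  refine ⟨m, r', h3, h4, h1, h2.trans ?_, h5⟩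
  have hη1 : 1 ≤ 1 / η := by rw [le_div_iff₀ hη]; linarith
  have e1 : (1 / η) ^ ((4 * ⌊x⌋₊ + 4) ^ (2 * ⌊x⌋₊ + 6)) =
      (1 / η) ^ (((4 * ⌊x⌋₊ + 4) ^ (2 * ⌊x⌋₊ + 6) : ℕ) : ℝ) := (Real.rpow_natCast _ _).symm
  rw [e1, hxx]
  exact Real.rpow_le_rpow_of_exponent_le hη1 (expo hx16 (Nat.floor_le hx0))

theorem log_ge (w : ℕ) : 1 ≤ Real.log ((w : ℝ) + 3) := by
  rw [Real.le_log_iff_exp_le (by positivity)]
  have := Real.exp_one_lt_d9
  have : (0 : ℝ) ≤ w := Nat.cast_nonneg w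
  linarith

theorem KK_mono {C C' : ℝ} (h0 : 0 ≤ C) (h : C ≤ C') {w w' : ℕ} (hw : w ≤ w') :
    KK C w ≤ KK C' w' := by
  unfold KK
  apply Real.exp_le_exp.2
  apply Real.exp_le_exp.2
  have h1 := log_ge w
  have h2 := log_ge w'
  have h3 : Real.log ((w : ℝ) + 3) ≤ Real.log ((w' : ℝ) + 3) := by
    apply Real.log_le_log (by positivity)
    have : (w : ℝ) ≤ w' := by exact_mod_cast hw
    linarith
  apply mul_le_mul h
  · calc (Real.log ((w : ℝ) + 3)) ^ C ≤ (Real.log ((w' : ℝ) + 3)) ^ C :=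
          Real.rpow_le_rpow (by linarith) h3 h0
      _ ≤ _ := Real.rpow_le_rpow_of_exponent_le h2 h
  · positivity
  · linarith

/-- small posets near the infimum -/
def Near (C : ℝ) : Prop := ∀ w : ℕ, 2 ≤ w → ∀ η : ℝ, 0 < η → η ≤ 1 / 2 →
  ∃ (m : ℕ) (r : Fin m → Fin m → Prop), IsPoset r ∧ HasWidth r w ∧
    (m : ℝ) ≤ (1 / η) ^ (KK C w) ∧ balance r ≤ deltaW w + η

theorem Near.mono {C C' : ℝ} (h0 : 0 ≤ C) (h : C ≤ C') (hN : Near C) : Near C' := by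
  intro w hw η hη hη2
  obtain ⟨m, r, h1, h2, h3, h4⟩ := hN w hw η hη hη2
  refine ⟨m, r, h1, h2, h3.trans ?_, h4⟩
  have hη1 : 1 ≤ 1 / η := by rw [le_div_iff₀ hη]; linarith
  exact Real.rpow_le_rpow_of_exponent_le hη1 (KK_mono h0 h (le_refl w))

theorem near : ∃ C : ℝ, 1 ≤ C ∧ Near C := by
  obtain ⟨C1, hC1, h1⟩ := eps_version
  obtain ⟨A, hA, _, _, _, h2, _⟩ := Pool.Agent.T1K.t1_final
  obtain ⟨C, hC⟩ : ∃ C : ℝ, C = (C1 + 1) * (24 * A) ^ 5 + 5 * A := ⟨_, rfl⟩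
  have hA5 : 1 ≤ (24 * A) ^ 5 := one_le_pow₀ (by linarith)
  have hCp : 1 ≤ C := by rw [hC]; nlinarith
  refine ⟨C, hCp, ?_⟩
  intro w hw η hη hη2
  obtain ⟨l, hl⟩ : ∃ l : ℝ, l = Real.log ((w : ℝ) + 3) := ⟨_, rfl⟩
  have hl1 : 1 ≤ l := by rw [hl]; exact log_ge w
  have hlA : 1 ≤ l ^ A := Real.one_le_rpow hl1 (by linarith)
  obtain ⟨z, hz⟩ : ∃ z : ℝ, z = 24 * A * l ^ A := ⟨_, rfl⟩
  have hAl : 1 ≤ A * l ^ A := by nlinarith
  have hz24 : 24 ≤ z := by rw [hz]; nlinarith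
  have hz0 : 0 < z := by linarith
  have hε : 0 < 1 / z := by positivity
  have hε2 : 1 / z ≤ 1 / 2 := by
    rw [div_le_div_iff₀ hz0 (by norm_num)]; linarith
  -- the upper bound for δ_w
  have hup : deltaW w ≤ 1 / 2 - 2 * (1 / z) := by
    rcases Nat.lt_or_ge w 3 with hw3 | hw3
    · have : w = 2 := by omega
      subst this
      have h3 := main 2 (le_refl 2)
      have h4 : 2 * (1 / z) ≤ 1 / 12 := by
        rw [mul_one_div, div_le_div_iff₀ hz0 (by norm_num)]; linarith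
      norm_num at h3 ⊢
      norm_num at h4
      linarith
    · have h3 := h2 w hw3
      have hwR : (3 : ℝ) ≤ w := by exact_mod_cast hw3
      have h4 : 0 < Real.log w := Real.log_pos (by linarith)
      have h5 : Real.log w ≤ l := by
        rw [hl]; exact Real.log_le_log (by linarith) (by linarith)
      have h6 : (Real.log w) ^ A ≤ l ^ A := Real.rpow_le_rpow h4.le h5 (by linarith)
      have h7 : 0 < (Real.log w) ^ A := Real.rpow_pos_of_pos h4 A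
      have h8 : 2 * (1 / z) ≤ 1 / (A * (Real.log w) ^ A) := by
        rw [mul_one_div, div_le_div_iff₀ hz0 (by positivity), hz]
        have : A * (Real.log w) ^ A ≤ A * l ^ A := mul_le_mul_of_nonneg_left h6 (by linarith)
        nlinarith
      linarith
  -- a poset near the infimum
  have hne : {d : ℝ | ∃ (n : ℕ) (r : Fin n → Fin n → Prop),
      IsPoset r ∧ HasWidth r w ∧ d = balance r}.Nonempty := by
    obtain ⟨n, r, h3, h4⟩ := Pool.Agent.Helper8.KS.exists_width w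
    exact ⟨_, n, r, h3, h4, rfl⟩
  obtain ⟨d, ⟨n, r, hr, hwr, rfl⟩, hd⟩ := exists_lt_of_csInf_lt hne
    (show sInf {d : ℝ | ∃ (n : ℕ) (r : Fin n → Fin n → Prop),
      IsPoset r ∧ HasWidth r w ∧ d = balance r} < deltaW w + min (η / 2) (1 / z) by
        have : 0 < min (η / 2) (1 / z) := lt_min (by linarith) hε
        show deltaW w < _
        linarith)
  have hd1 := min_le_left (η / 2) (1 / z)
  have hd2 := min_le_right (η / 2) (1 / z)
  obtain ⟨m, r', h3, h4, _, h5, h6⟩ := h1 (1 / z) (η / 2) hε hε2 (by linarith) (by linarith)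
    n w r hr hwr (by linarith)
  refine ⟨m, r', h3, h4, h5.trans ?_, ?_⟩
  · have hη1 : 1 ≤ 1 / η := by rw [le_div_iff₀ hη]; linarith
    have hη3 : 2 ≤ 1 / η := by rw [le_div_iff₀ hη]; linarith
    have hη0 : 0 ≤ 1 / η := by linarith
    have e1 : 1 / (η / 2) ≤ (1 / η) ^ (2 : ℝ) := by
      have : 1 / (η / 2) = 2 * (1 / η) := by field_simp
      rw [this, Real.rpow_two]
      nlinarith
    obtain ⟨E, hE⟩ : ∃ E : ℝ, E = Real.exp ((1 / (1 / z)) ^ (C1 / (1 / z) ^ 4)) := ⟨_, rfl⟩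
    rw [← hE]
    have hE0 : 0 ≤ E := by rw [hE]; exact (Real.exp_pos _).le
    calc (1 / (η / 2)) ^ E ≤ ((1 / η) ^ (2 : ℝ)) ^ E :=
          Real.rpow_le_rpow (by positivity) e1 hE0
      _ = (1 / η) ^ (2 * E) := by rw [← Real.rpow_mul hη0]
      _ ≤ _ := by
        apply Real.rpow_le_rpow_of_exponent_le hη1
        unfold KK
        rw [← hl]
        have e2 : (1 / (1 / z)) ^ (C1 / (1 / z) ^ 4) = Real.exp (Real.log z * (C1 * z ^ 4)) := by
          rw [one_div_one_div, Real.rpow_def_of_pos hz0]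
          congr 2
          rw [one_div, inv_pow, div_inv_eq_mul]
        have e3 : Real.log z * (C1 * z ^ 4) ≤ C1 * z ^ 5 := by
          have h7 : Real.log z ≤ z := (Real.log_le_sub_one_of_pos hz0).trans (by linarith)
          calc Real.log z * (C1 * z ^ 4) ≤ z * (C1 * z ^ 4) :=
                mul_le_mul_of_nonneg_right h7 (by positivity)
            _ = C1 * z ^ 5 := by ring
        have e4 : z ^ 5 = (24 * A) ^ 5 * l ^ (5 * A) := by
          rw [hz, mul_pow]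
          congr 1
          rw [← Real.rpow_natCast, ← Real.rpow_mul (by linarith)]
          congr 1
          push_cast
          ring
        have e5 : C1 * z ^ 5 + 1 ≤ C * l ^ C := by
          have h7 : 1 ≤ z ^ 5 := one_le_pow₀ (by linarith)
          have h8 : l ^ (5 * A) ≤ l ^ C := by
            apply Real.rpow_le_rpow_of_exponent_le hl1
            rw [hC]
            nlinarith
          have h9 : (C1 + 1) * (24 * A) ^ 5 ≤ C := by rw [hC]; linarith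
          calc C1 * z ^ 5 + 1 ≤ (C1 + 1) * z ^ 5 := by linarith
            _ = ((C1 + 1) * (24 * A) ^ 5) * l ^ (5 * A) := by rw [e4]; ring
            _ ≤ C * l ^ C := mul_le_mul h9 h8 (by positivity) (by linarith)
        obtain ⟨y, hy⟩ : ∃ y : ℝ, y = (1 / (1 / z)) ^ (C1 / (1 / z) ^ 4) := ⟨_, rfl⟩
        rw [hE, ← hy]
        have e6 : y + 1 ≤ Real.exp (C * l ^ C) := by
          have h7 : y ≤ Real.exp (C1 * z ^ 5) := by
            rw [hy, e2]; exact Real.exp_le_exp.2 e3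
          have h8 : Real.exp (C1 * z ^ 5 + 1) ≤ Real.exp (C * l ^ C) := Real.exp_le_exp.2 e5
          have h9 : 1 ≤ Real.exp (C1 * z ^ 5) := Real.one_le_exp (by positivity)
          rw [Real.exp_add] at h8
          have h10 := Real.exp_one_gt_d9
          nlinarith
        have e7 : 2 * Real.exp y ≤ Real.exp (y + 1) := by
          rw [Real.exp_add]
          have h10 := Real.exp_one_gt_d9
          have := Real.exp_pos y
          nlinarith
        exact e7.trans (Real.exp_le_exp.2 e6)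
  · rw [abs_le] at h6
    linarith [h6.2]

theorem KK_pos (C : ℝ) (w : ℕ) : 0 < KK C w := Real.exp_pos _

theorem KK_one (C : ℝ) (w : ℕ) : 1 ≤ KK C w := Real.one_le_exp (Real.exp_pos _).le

theorem deltaW_le {n w : ℕ} {r : Fin n → Fin n → Prop} (h1 : IsPoset r) (h2 : HasWidth r w) :
    deltaW w ≤ balance r := by
  unfold deltaW
  apply csInf_le
  · refine ⟨0, ?_⟩
    rintro d ⟨n, r, _, _, rfl⟩
    exact balance_nonneg r
  · exact ⟨n, r, h1, h2, rfl⟩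

theorem rate {C : ℝ} (hN : Near C) {w : ℕ} (hw : 2 ≤ w) {N : ℕ}
    (h : (2 : ℝ) ^ KK C w ≤ N) :
    deltaW w ≤ deltaN w N ∧ deltaN w N ≤ deltaW w + (N : ℝ) ^ (-(1 / KK C w)) := by
  have hK := KK_pos C w
  have h2p : (0 : ℝ) < 2 ^ KK C w := Real.rpow_pos_of_pos (by norm_num) _
  have hN0 : (0 : ℝ) < N := lt_of_lt_of_le h2p h
  obtain ⟨η, hη⟩ : ∃ η : ℝ, η = (N : ℝ) ^ (-(1 / KK C w)) := ⟨_, rfl⟩
  have hη0 : 0 < η := by rw [hη]; exact Real.rpow_pos_of_pos hN0 _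
  have hηi : 1 / η = (N : ℝ) ^ (1 / KK C w) := by
    rw [hη, Real.rpow_neg hN0.le, one_div, inv_inv]
  have hη2 : 2 ≤ 1 / η := by
    rw [hηi]
    calc (2 : ℝ) = (2 ^ KK C w) ^ (1 / KK C w) := by
          rw [← Real.rpow_mul (by norm_num), mul_one_div_cancel hK.ne', Real.rpow_one]
      _ ≤ _ := Real.rpow_le_rpow h2p.le h (by positivity)
  have hη3 : η ≤ 1 / 2 := by
    rw [le_div_iff₀ hη0] at hη2
    linarith
  obtain ⟨m, r, h1, h2, h3, h4⟩ := hN w hw η hη0 hη3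
  have hm : m ≤ N := by
    have : (1 / η) ^ KK C w = N := by
      rw [hηi, ← Real.rpow_mul hN0.le, one_div_mul_cancel hK.ne', Real.rpow_one]
    rw [this] at h3
    exact_mod_cast h3
  rw [← hη]
  constructor
  · unfold deltaN
    apply le_csInf
    · exact ⟨_, m, r, hm, h1, h2, rfl⟩
    · rintro d ⟨n, r, _, h5, h6, rfl⟩
      exact deltaW_le h5 h6
  · refine le_trans ?_ h4
    unfold deltaN
    apply csInf_le
    · refine ⟨0, ?_⟩
      rintro d ⟨n, r, _, _, _, rfl⟩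
      exact balance_nonneg r
    · exact ⟨m, r, hm, h1, h2, rfl⟩

theorem two_pow_mono {a b : ℝ} (h : a ≤ b) : (2 : ℝ) ^ a ≤ 2 ^ b :=
  Real.rpow_le_rpow_of_exponent_le (by norm_num) h

theorem equiv {C : ℝ} (hC : 1 ≤ C) (hN : Near C) {w w' : ℕ} (hw : 2 ≤ w) (hw' : 2 ≤ w') :
    deltaW w < deltaW w' ↔ ∃ N : ℕ, (2 : ℝ) ^ KK C (max w w') ≤ N ∧
      deltaN w N + (N : ℝ) ^ (-(1 / KK C (max w w'))) < deltaN w' N := by
  obtain ⟨K, hK⟩ : ∃ K, K = KK C (max w w') := ⟨_, rfl⟩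
  have hK0 : 0 < K := by rw [hK]; exact KK_pos _ _
  have hw1 : KK C w ≤ K := by rw [hK]; exact KK_mono (by linarith) (le_refl C) (le_max_left _ _)
  have hw2 : KK C w' ≤ K := by rw [hK]; exact KK_mono (by linarith) (le_refl C) (le_max_right _ _)
  rw [← hK]
  have hmono : ∀ N : ℕ, (2 : ℝ) ^ K ≤ N → ∀ K', 0 < K' → K' ≤ K →
      (N : ℝ) ^ (-(1 / K')) ≤ (N : ℝ) ^ (-(1 / K)) := by
    intro N h K' hK' hKK
    have h1 : (1 : ℝ) ≤ N := by
      refine le_trans ?_ h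
      exact Real.one_le_rpow (by norm_num) hK0.le
    apply Real.rpow_le_rpow_of_exponent_le h1
    have := one_div_le_one_div_of_le hK' hKK
    linarith
  constructor
  · intro h
    have hlim : Filter.Tendsto (fun N : ℕ => (N : ℝ) ^ (-(1 / K))) Filter.atTop (nhds 0) :=
      (tendsto_rpow_neg_atTop (by positivity)).comp tendsto_natCast_atTop_atTop
    have hev := hlim.eventually (gt_mem_nhds (show (0 : ℝ) < (deltaW w' - deltaW w) / 2 by
      linarith))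
    have hev2 := (tendsto_natCast_atTop_atTop (R := ℝ)).eventually
      (Filter.eventually_ge_atTop ((2 : ℝ) ^ K))
    obtain ⟨N, h1, h2⟩ := (hev.and hev2).exists
    refine ⟨N, h2, ?_⟩
    have h3 := (rate hN hw (N := N) ((two_pow_mono hw1).trans h2)).2
    have h4 := (rate hN hw' (N := N) ((two_pow_mono hw2).trans h2)).1
    have h5 := hmono N h2 _ (KK_pos C w) hw1
    linarith
  · rintro ⟨N, h1, h2⟩
    have h3 := (rate hN hw (N := N) ((two_pow_mono hw1).trans h1)).1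
    have h4 := (rate hN hw' (N := N) ((two_pow_mono hw2).trans h1)).2
    have h5 := hmono N h1 _ (KK_pos C w') hw2
    linarith

/-- **The statement.** -/
theorem final :
    (∀ (D n w : ℕ) (r : Fin n → Fin n → Prop), IsPoset r → HasWidth r w →
      (∀ x, Nat.card {y : Fin n // ¬ r x y ∧ ¬ r y x} ≤ D) →
      ∀ η : ℝ, 0 < η → η ≤ 1 / 2 → ∃ (m : ℕ) (r' : Fin m → Fin m → Prop),
        IsPoset r' ∧ HasWidth r' w ∧ m ≤ n ∧
        (m : ℝ) ≤ (1 / η) ^ ((4 * D + 4) ^ (2 * D + 6)) ∧ |balance r' - balance r| ≤ η) ∧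
    ∃ C : ℝ, 1 ≤ C ∧
    (∀ ε η : ℝ, 0 < ε → ε ≤ 1 / 2 → 0 < η → η ≤ 1 / 2 →
      ∀ (n w : ℕ) (r : Fin n → Fin n → Prop), IsPoset r → HasWidth r w →
      balance r ≤ 1 / 2 - ε → ∃ (m : ℕ) (r' : Fin m → Fin m → Prop), IsPoset r' ∧
        HasWidth r' w ∧ m ≤ n ∧ (m : ℝ) ≤ (1 / η) ^ (Real.exp ((1 / ε) ^ (C / ε ^ 4))) ∧
        |balance r' - balance r| ≤ η) ∧
    (∀ a η : ℝ, a ≤ 5 / 12 → 0 < η → η ≤ 1 / 2 →
      ∀ (n w : ℕ) (r : Fin n → Fin n → Prop), IsPoset r → HasWidth r w → balance r < a →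
        ∃ (m : ℕ) (r' : Fin m → Fin m → Prop), IsPoset r' ∧ HasWidth r' w ∧ m ≤ n ∧
          (m : ℝ) ≤ (1 / η) ^ C ∧ balance r' < a + η) ∧
    (∀ w N : ℕ, 2 ≤ w → (2 : ℝ) ^ KK C w ≤ N →
      deltaW w ≤ deltaN w N ∧ deltaN w N ≤ deltaW w + (N : ℝ) ^ (-(1 / KK C w))) ∧
    (∀ w w' : ℕ, 2 ≤ w → 2 ≤ w' → (deltaW w < deltaW w' ↔
      ∃ N : ℕ, (2 : ℝ) ^ KK C (max w w') ≤ N ∧
        deltaN w N + (N : ℝ) ^ (-(1 / KK C (max w w'))) < deltaN w' N)) := by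
  refine ⟨fun D n w r hr hw hD η h0 h1 => ?_, ?_⟩
  · obtain ⟨m, r', h2, h3, h4, h5, h6⟩ := thin r hr hD hw h0 h1
    exact ⟨m, r', h4, h5, h2, h3, h6⟩
  obtain ⟨C1, hC1, hE⟩ := eps_version
  obtain ⟨C2, hC2, hN⟩ := near
  obtain ⟨E, hEd⟩ : ∃ E : ℝ, E = Real.exp ((1 / (1 / 12 : ℝ)) ^ (C1 / (1 / 12 : ℝ) ^ 4)) :=
    ⟨_, rfl⟩
  have hE0 : 0 ≤ E := by rw [hEd]; exact (Real.exp_pos _).le
  obtain ⟨C, hC⟩ : ∃ C : ℝ, C = C1 + C2 + E := ⟨_, rfl⟩
  have hCC1 : C1 ≤ C := by linarith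
  have hCC2 : C2 ≤ C := by linarith
  have hCE : E ≤ C := by linarith
  have hC1' : 1 ≤ C := by linarith
  have hNC := hN.mono (by linarith) hCC2
  refine ⟨C, hC1', ?_, ?_, fun w N hw h => rate hNC hw h,
    fun w w' hw hw' => equiv hC1' hNC hw hw'⟩
  · intro ε η hε hε2 hη hη2 n w r hr hw hb
    obtain ⟨m, r', h1, h2, h3, h4, h5⟩ := hE ε η hε hε2 hη hη2 n w r hr hw hb
    refine ⟨m, r', h1, h2, h3, h4.trans ?_, h5⟩
    have hη1 : 1 ≤ 1 / η := by rw [le_div_iff₀ hη]; linarith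
    have hε1 : 1 ≤ 1 / ε := by rw [le_div_iff₀ hε]; linarith
    apply Real.rpow_le_rpow_of_exponent_le hη1
    apply Real.exp_le_exp.2
    apply Real.rpow_le_rpow_of_exponent_le hε1
    exact div_le_div_of_nonneg_right hCC1 (by positivity)
  · intro a η ha hη hη2 n w r hr hw hb
    obtain ⟨m, r', h1, h2, h3, h4, h5⟩ := hE (1 / 12) η (by norm_num) (by norm_num) hη hη2 n w r
      hr hw (by linarith)
    rw [← hEd] at h4
    have hη1 : 1 ≤ 1 / η := by rw [le_div_iff₀ hη]; linarith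
    refine ⟨m, r', h1, h2, h3, h4.trans (Real.rpow_le_rpow_of_exponent_le hη1 hCE), ?_⟩
    rw [abs_le] at h5
    linarith [h5.2]

end Pool.Agent.Wit
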