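import Mathlib

set_option autoImplicit false

/-!
# Numbers of linear extensions by recursion
-/

namespace Pool.Agent.Wit

open Finset

variable {α β : Type*} [DecidableEq α] [DecidableEq β]

open Classical in
/-- the maximal elements of `A` -/
noncomputable def mx (R : α → α → Prop) (A : Finset α) : Finset α :=
  A.filter (fun m => ∀ j ∈ A, j ≠ m → ¬ R m j)

theorem mem_mx {R : α → α → Prop} {A : Finset α} {m : α} :
    m ∈ mx R A ↔ m ∈ A ∧ ∀ j ∈ A, j ≠ m → ¬ R m j := by
  classical
  simp only [mx, mem_filter]

theorem mx_sub {R : α → α → Prop} {A : Finset α} : mx R A ⊆ A := by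
  intro m hm; exact (mem_mx.1 hm).1

/-- the reversed relation -/
def flp (R : α → α → Prop) : α → α → Prop := fun a b => R b a

/-- the number of linear extensions, with fuel -/
noncomputable def ex (R : α → α → Prop) : ℕ → Finset α → ℕ
  | 0, _ => 1
  | (k + 1), A => ∑ m ∈ mx R A, ex R k (A.erase m)

/-- the number of linear extensions of `R` on `A` -/
noncomputable def e (R : α → α → Prop) (A : Finset α) : ℕ := ex R A.card A

theorem e_empty (R : α → α → Prop) : e R ∅ = 1 := rfl

theorem e_rec (R : α → α → Prop) {A : Finset α} (hA : A.Nonempty) :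
    e R A = ∑ m ∈ mx R A, e R (A.erase m) := by
  have h1 : 0 < A.card := hA.card_pos
  obtain ⟨k, hk⟩ : ∃ k, A.card = k + 1 := ⟨A.card - 1, by omega⟩
  unfold e
  rw [hk]
  show ∑ m ∈ mx R A, ex R k (A.erase m) = _
  apply sum_congr rfl
  intro m hm
  rw [card_erase_of_mem (mx_sub hm), hk]
  rfl

theorem e_dual (R : α → α → Prop) : ∀ (k : ℕ) (A : Finset α), A.card = k → A.Nonempty →
    e R A = ∑ m ∈ mx (flp R) A, e R (A.erase m) := by
  intro k
  induction k with
  | zero =>
    intro A h1 h2
    have := h2.card_pos
    omega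
  | succ k ih =>
    intro A h1 h2
    rcases Nat.eq_zero_or_pos k with h0 | h0
    · subst h0
      obtain ⟨a, rfl⟩ := card_eq_one.1 h1
      have h3 : ∀ S : α → α → Prop, mx S {a} = {a} := by
        intro S
        ext m
        rw [mem_mx, mem_singleton]
        constructor
        · exact fun h => h.1
        · rintro rfl
          refine ⟨rfl, ?_⟩
          intro j hj hne
          exact absurd (mem_singleton.1 hj) hne
      rw [e_rec R h2, h3, h3]
    · have key : ∀ S : α → α → Prop, ∀ m ∈ mx S A,
          mx (flp S) (A.erase m) = (mx (flp S) A).erase m := by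
        intro S m hm
        rw [mem_mx] at hm
        ext l
        rw [mem_mx, mem_erase, mem_erase, mem_mx]
        constructor
        · rintro ⟨⟨h3, h4⟩, h5⟩
          refine ⟨h3, h4, ?_⟩
          intro j hj hjl hR
          by_cases hjm : j = m
          · subst hjm
            exact hm.2 l h4 h3 hR
          · exact h5 j (mem_erase.2 ⟨hjm, hj⟩) hjl hR
        · rintro ⟨h3, h4, h5⟩
          exact ⟨⟨h3, h4⟩, fun j hj hjl => h5 j (mem_of_mem_erase hj) hjl⟩
      have hne : ∀ m ∈ A, (A.erase m).card = k ∧ (A.erase m).Nonempty := by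
        intro m hm
        have : (A.erase m).card = k := by rw [card_erase_of_mem hm, h1]; rfl
        exact ⟨this, card_pos.1 (by omega)⟩
      have hff : flp (flp R) = R := rfl
      calc e R A = ∑ m ∈ mx R A, e R (A.erase m) := e_rec R h2
        _ = ∑ m ∈ mx R A, ∑ l ∈ (mx (flp R) A).erase m, e R ((A.erase m).erase l) := by
            apply sum_congr rfl
            intro m hm
            obtain ⟨h3, h4⟩ := hne m (mx_sub hm)
            rw [ih _ h3 h4, key R m hm]
        _ = ∑ l ∈ mx (flp R) A, ∑ m ∈ (mx R A).erase l, e R ((A.erase l).erase m) := by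
            rw [sum_comm' (t' := mx (flp R) A) (s' := fun l => (mx R A).erase l)]
            · apply sum_congr rfl
              intro l _
              apply sum_congr rfl
              intro m _
              rw [erase_right_comm]
            · intro m l
              simp only [mem_erase]
              constructor
              · rintro ⟨h3, h4, h5⟩
                exact ⟨⟨Ne.symm h4, h3⟩, h5⟩
              · rintro ⟨⟨h3, h4⟩, h5⟩
                exact ⟨h4, Ne.symm h3, h5⟩
        _ = _ := by
            apply sum_congr rfl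
            intro l hl
            obtain ⟨h3, h4⟩ := hne l (mx_sub hl)
            rw [e_rec R h4]
            have := key (flp R) l hl
            rw [hff] at this
            rw [this]

theorem e_flp (R : α → α → Prop) : ∀ (k : ℕ) (A : Finset α), A.card = k →
    e (flp R) A = e R A := by
  intro k
  induction k with
  | zero =>
    intro A h
    rw [card_eq_zero] at h
    rw [h, e_empty, e_empty]
  | succ k ih =>
    intro A h
    have hne : A.Nonempty := card_pos.1 (by omega)
    rw [e_dual R _ A h hne, e_rec (flp R) hne]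
    apply sum_congr rfl
    intro m hm
    apply ih
    rw [card_erase_of_mem (mx_sub hm), h]; rfl

theorem mx_image {R : α → α → Prop} {S : β → β → Prop} (f : α → β) {A : Finset α}
    (hf : Set.InjOn f A) (h : ∀ a ∈ A, ∀ b ∈ A, a ≠ b → (R a b ↔ S (f a) (f b))) :
    mx S (A.image f) = (mx R A).image f := by
  ext y
  rw [mem_mx]
  simp only [mem_image, mem_mx]
  constructor
  · rintro ⟨⟨a, ha, rfl⟩, h2⟩
    refine ⟨a, ⟨ha, ?_⟩, rfl⟩
    intro b hb hne hR
    refine h2 (f b) ⟨b, hb, rfl⟩ ?_ ((h a ha b hb (Ne.symm hne)).1 hR)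
    intro h3
    exact hne (hf hb ha h3)
  · rintro ⟨a, ⟨ha, h2⟩, rfl⟩
    refine ⟨⟨a, ha, rfl⟩, ?_⟩
    rintro _ ⟨b, hb, rfl⟩ hne hS
    have hne' : b ≠ a := fun h => hne (by rw [h])
    exact h2 b hb hne' ((h a ha b hb (Ne.symm hne')).2 hS)

theorem e_image {R : α → α → Prop} {S : β → β → Prop} (f : α → β) : ∀ (k : ℕ) (A : Finset α),
    A.card = k → Set.InjOn f A → (∀ a ∈ A, ∀ b ∈ A, a ≠ b → (R a b ↔ S (f a) (f b))) →
    e S (A.image f) = e R A := by
  intro k
  induction k with
  | zero =>
    intro A h _ _
    rw [card_eq_zero] at h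
    rw [h, image_empty, e_empty, e_empty]
  | succ k ih =>
    intro A h hf hR
    have hne : A.Nonempty := card_pos.1 (by omega)
    rw [e_rec R hne, e_rec S (hne.image f), mx_image f hf hR, sum_image]
    · apply sum_congr rfl
      intro m hm
      have hm' := mx_sub hm
      have : (A.image f).erase (f m) = (A.erase m).image f := by
        ext y
        simp only [mem_erase, mem_image]
        constructor
        · rintro ⟨h1, a, ha, rfl⟩
          exact ⟨a, ⟨fun h2 => h1 (by rw [h2]), ha⟩, rfl⟩
        · rintro ⟨a, ⟨h1, ha⟩, rfl⟩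
          exact ⟨fun h2 => h1 (hf ha hm' h2), a, ha, rfl⟩
      rw [this]
      apply ih
      · rw [card_erase_of_mem hm', h]; rfl
      · exact fun a ha b hb => hf (mem_of_mem_erase ha) (mem_of_mem_erase hb)
      · exact fun a ha b hb => hR a (mem_of_mem_erase ha) b (mem_of_mem_erase hb)
    · exact fun a ha b hb => hf (mx_sub ha) (mx_sub hb)

theorem e_image' {R : α → α → Prop} {S : β → β → Prop} (f : α → β) (A : Finset α)
    (hf : Set.InjOn f A) (h : ∀ a ∈ A, ∀ b ∈ A, a ≠ b → (R a b ↔ S (f a) (f b))) :
    e S (A.image f) = e R A := e_image f _ A rfl hf h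

theorem e_congr {R S : α → α → Prop} (A : Finset α)
    (h : ∀ a ∈ A, ∀ b ∈ A, a ≠ b → (R a b ↔ S a b)) : e S A = e R A := by
  have := e_image' (R := R) (S := S) id A (fun a _ b _ h => h) h
  rwa [image_id] at this

open Classical in
theorem e_insert_le (R : α → α → Prop) (z : α) : ∀ (k : ℕ) (A : Finset α), A.card = k → z ∉ A →
    e R (insert z A) ≤ ((A.filter (fun a => ¬ R a z ∧ ¬ R z a)).card + 1) * e R A := by
  intro k
  induction k with
  | zero =>
    intro A h _
    rw [card_eq_zero] at h
    subst h
    rw [e_rec R (insert_nonempty _ _)]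
    have : mx R (insert z ∅) = {z} := by
      ext m
      rw [mem_mx]
      simp only [mem_insert, notMem_empty, or_false, mem_singleton]
      constructor
      · exact fun h => h.1
      · rintro rfl
        exact ⟨rfl, fun j hj hne => absurd hj hne⟩
    rw [this]
    simp [e_empty]
  | succ k ih =>
    intro A h hz
    have hne : A.Nonempty := card_pos.1 (by omega)
    obtain ⟨I, hI⟩ : ∃ I, I = (A.filter (fun a => ¬ R a z ∧ ¬ R z a)).card := ⟨_, rfl⟩
    rw [← hI]
    -- the maximal elements other than z
    have hsub : (mx R (insert z A)).erase z ⊆ mx R A := by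
      intro m hm
      rw [mem_erase, mem_mx, mem_insert] at hm
      obtain ⟨h1, h2, h3⟩ := hm
      rw [mem_mx]
      refine ⟨h2.resolve_left h1, fun j hj hne => h3 j (mem_insert_of_mem hj) hne⟩
    have hterm : ∀ m ∈ (mx R (insert z A)).erase z, e R ((insert z A).erase m) =
        e R (insert z (A.erase m)) := by
      intro m hm
      congr 1
      rw [erase_insert_of_ne]
      exact Ne.symm (mem_erase.1 hm).1
    have hcard : ∀ m ∈ A, (A.erase m).card = k := by
      intro m hm
      rw [card_erase_of_mem hm, h]; rfl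
    rw [e_rec R (insert_nonempty _ _)]
    by_cases hzm : z ∈ mx R (insert z A)
    · rw [← add_sum_erase _ _ hzm, erase_insert hz, add_mul, one_mul, add_comm]
      apply Nat.add_le_add_right
      rw [e_rec R hne, mul_sum]
      refine le_trans ?_ (sum_le_sum_of_subset hsub)
      apply sum_le_sum
      intro m hm
      rw [hterm m hm]
      have hmA := mx_sub (hsub hm)
      refine (ih (A.erase m) (hcard m hmA) (fun h => hz (mem_of_mem_erase h))).trans ?_
      apply Nat.mul_le_mul_right
      have hmz : ¬ R m z ∧ ¬ R z m := by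
        rw [mem_erase, mem_mx] at hm
        rw [mem_mx] at hzm
        exact ⟨hm.2.2 z (mem_insert_self _ _) (Ne.symm hm.1),
          hzm.2 m (mem_insert_of_mem hmA) hm.1⟩
      have : (A.erase m).filter (fun a => ¬ R a z ∧ ¬ R z a) =
          (A.filter (fun a => ¬ R a z ∧ ¬ R z a)).erase m := by
        rw [filter_erase]
      rw [this, card_erase_of_mem (mem_filter.2 ⟨hmA, hmz⟩), ← hI]
      have : 0 < I := by
        rw [hI]; exact card_pos.2 ⟨m, mem_filter.2 ⟨hmA, hmz⟩⟩
      omega
    · rw [← erase_eq_of_notMem hzm, e_rec R hne, mul_sum]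
      refine le_trans ?_ (sum_le_sum_of_subset hsub)
      apply sum_le_sum
      intro m hm
      rw [hterm m hm]
      have hmA := mx_sub (hsub hm)
      refine (ih (A.erase m) (hcard m hmA) (fun h => hz (mem_of_mem_erase h))).trans ?_
      apply Nat.mul_le_mul_right
      have : ((A.erase m).filter (fun a => ¬ R a z ∧ ¬ R z a)).card ≤ I := by
        rw [hI]
        exact card_le_card (filter_subset_filter _ (erase_subset _ _))
      omega

theorem e_top (R : α → α → Prop) (z : α) (A : Finset α) (hz : z ∉ A) (h1 : ∀ a ∈ A, R a z)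
    (h2 : ∀ a ∈ A, ¬ R z a) : e R (insert z A) = e R A := by
  rw [e_rec R (insert_nonempty _ _)]
  have : mx R (insert z A) = {z} := by
    ext m
    rw [mem_mx, mem_singleton, mem_insert]
    constructor
    · rintro ⟨h3, h4⟩
      by_contra hne
      exact h4 z (mem_insert_self _ _) (Ne.symm hne) (h1 m (h3.resolve_left hne))
    · rintro rfl
      refine ⟨Or.inl rfl, ?_⟩
      intro j hj hne
      exact h2 j ((mem_insert.1 hj).resolve_left hne)
  rw [this, sum_singleton, erase_insert hz]

theorem e_bot (R : α → α → Prop) (z : α) (A : Finset α) (hz : z ∉ A) (h1 : ∀ a ∈ A, R z a)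
    (h2 : ∀ a ∈ A, ¬ R a z) : e R (insert z A) = e R A := by
  rw [← e_flp R _ _ rfl, ← e_flp R _ A rfl]
  exact e_top (flp R) z A hz h1 h2

theorem e_mono {R S : α → α → Prop} (h : ∀ a b, R a b → S a b) : ∀ (k : ℕ) (A : Finset α),
    A.card = k → e S A ≤ e R A := by
  intro k
  induction k with
  | zero =>
    intro A h
    rw [card_eq_zero] at h
    rw [h, e_empty, e_empty]
  | succ k ih =>
    intro A hA
    have hne : A.Nonempty := card_pos.1 (by omega)
    rw [e_rec R hne, e_rec S hne]
    have hsub : mx S A ⊆ mx R A := by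
      intro m hm
      rw [mem_mx] at hm ⊢
      exact ⟨hm.1, fun j hj hne hR => hm.2 j hj hne (h _ _ hR)⟩
    refine le_trans ?_ (sum_le_sum_of_subset hsub)
    apply sum_le_sum
    intro m hm
    apply ih
    rw [card_erase_of_mem (mx_sub hm), hA]; rfl

theorem e_pos {R : ℤ → ℤ → Prop} (h : ∀ i j, R i j → i < j) : ∀ (k : ℕ) (A : Finset ℤ),
    A.card = k → 0 < e R A := by
  intro k
  induction k with
  | zero =>
    intro A h
    rw [card_eq_zero] at h
    rw [h, e_empty]; exact Nat.one_pos
  | succ k ih =>
    intro A hA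
    have hne : A.Nonempty := card_pos.1 (by omega)
    rw [e_rec R hne]
    have hm : A.max' hne ∈ mx R A := by
      rw [mem_mx]
      refine ⟨max'_mem _ _, ?_⟩
      intro j hj _ hR
      have := le_max' A j hj
      have := h _ _ hR
      omega
    refine lt_of_lt_of_le ?_ (single_le_sum (f := fun m => e R (A.erase m))
      (fun _ _ => Nat.zero_le _) hm)
    apply ih
    rw [card_erase_of_mem (mx_sub hm), hA]; rfl

end Pool.Agent.Wit
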