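import Pool.Agent.Wit.Ext
import Pool.Agent.Helper1.BalanceProof

set_option autoImplicit false

/-!
# Linear extensions as permutations
-/

namespace Pool.Agent.Wit

open Finset Pool.Agent.Helper1.Balance

open Classical in
/-- indicator -/
noncomputable def one (P : Prop) : ℕ := if P then 1 else 0

theorem one_pos {P : Prop} (h : P) : one P = 1 := by unfold one; rw [if_pos h]

theorem one_neg {P : Prop} (h : ¬ P) : one P = 0 := by unfold one; rw [if_neg h]

open Classical in
theorem card_perm : ∀ (n : ℕ) (r : Fin n → Fin n → Prop),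
    Nat.card {ρ : Equiv.Perm (Fin n) // ∀ i j, r (ρ i) (ρ j) → i ≤ j} =
      e r (univ : Finset (Fin n)) := by
  intro n
  induction n with
  | zero =>
    intro r
    have h1 : e r (univ : Finset (Fin 0)) = 1 := by
      rw [univ_eq_empty, e_empty]
    rw [h1, Nat.card_eq_one_iff_unique]
    refine ⟨⟨?_⟩, ⟨⟨1, fun i => i.elim0⟩⟩⟩
    rintro ⟨a, ha⟩ ⟨b, hb⟩
    rw [Subtype.mk.injEq]
    exact Subsingleton.elim a b
  | succ n ih =>
    intro r
    have hcard : ∀ (k : ℕ) (P : Equiv.Perm (Fin k) → Prop),
        Nat.card {ρ : Equiv.Perm (Fin k) // P ρ} = ∑ ρ : Equiv.Perm (Fin k), one (P ρ) := by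
      intro k P
      rw [Nat.card_eq_fintype_card, Fintype.card_subtype, card_filter]
      rfl
    rw [hcard, ← ins_bij.sum_comp, Fintype.sum_prod_type, e_rec r univ_nonempty]
    have hP : ∀ (p : Fin (n + 1)) (τ : Equiv.Perm (Fin n)),
        (∀ i j, r (ins p τ i) (ins p τ j) → i ≤ j) ↔
          (p ∈ mx r univ ∧ ∀ i j, r (p.succAbove (τ i)) (p.succAbove (τ j)) → i ≤ j) := by
      intro p τ
      constructor
      · intro h
        constructor
        · rw [mem_mx]
          refine ⟨mem_univ _, ?_⟩
          intro j _ hj hR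
          obtain ⟨k, rfl⟩ := Fin.exists_succAbove_eq hj
          have h1 := h (Fin.last n) (τ.symm k).castSucc
          rw [ins_last, ins_castSucc, Equiv.apply_symm_apply] at h1
          have h2 := h1 hR
          have h3 := Fin.castSucc_lt_last (τ.symm k)
          exact absurd h2 (not_le.2 h3)
        · intro i j hR
          have h1 := h i.castSucc j.castSucc
          rw [ins_castSucc, ins_castSucc] at h1
          exact Fin.castSucc_le_castSucc_iff.1 (h1 hR)
      · rintro ⟨h1, h2⟩ i j hR
        rw [mem_mx] at h1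
        induction i using Fin.lastCases with
        | last =>
          induction j using Fin.lastCases with
          | last => exact le_refl _
          | cast j =>
            rw [ins_last, ins_castSucc] at hR
            exact absurd hR (h1.2 _ (mem_univ _) (Fin.succAbove_ne p (τ j)))
        | cast i =>
          induction j using Fin.lastCases with
          | last => exact Fin.le_last _
          | cast j =>
            rw [ins_castSucc, ins_castSucc] at hR
            exact Fin.castSucc_le_castSucc_iff.2 (h2 i j hR)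
    have hstep : ∀ p : Fin (n + 1), (∑ τ : Equiv.Perm (Fin n),
        one (∀ i j, r (ins p τ i) (ins p τ j) → i ≤ j)) =
        if p ∈ mx r univ then e r (univ.erase p) else 0 := by
      intro p
      by_cases hp : p ∈ mx r univ
      · rw [if_pos hp]
        have h1 : (univ.erase p : Finset (Fin (n + 1))) = univ.image p.succAbove := by
          ext j
          simp only [mem_erase, mem_univ, and_true, mem_image, true_and]
          constructor
          · intro hj
            exact Fin.exists_succAbove_eq hj
          · rintro ⟨k, rfl⟩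
            exact Fin.succAbove_ne p k
        rw [h1, e_image' (R := fun a b => r (p.succAbove a) (p.succAbove b)) p.succAbove univ
          (fun a _ b _ h => Fin.succAbove_right_injective h) (fun _ _ _ _ _ => Iff.rfl), ← ih,
          hcard]
        apply sum_congr rfl
        intro τ _
        have h2 := hP p τ
        by_cases h3 : ∀ i j, r (p.succAbove (τ i)) (p.succAbove (τ j)) → i ≤ j
        · rw [one_pos h3, one_pos (h2.2 ⟨hp, h3⟩)]
        · rw [one_neg h3, one_neg (fun h => h3 (h2.1 h).2)]
      · rw [if_neg hp]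
        apply sum_eq_zero
        intro τ _
        rw [one_neg (fun h => hp ((hP p τ).1 h).1)]
    refine (sum_congr rfl (fun p _ => hstep p)).trans ?_
    rw [← sum_filter]
    apply sum_congr
    · ext p
      rw [mem_filter]
      exact ⟨fun h => h.2, fun h => ⟨mem_univ _, h⟩⟩
    · intro _ _; rfl

theorem card_lin (n : ℕ) (r : Fin n → Fin n → Prop) :
    Nat.card {σ : Equiv.Perm (Fin n) // ∀ a b, r a b → σ a ≤ σ b} =
      e r (univ : Finset (Fin n)) := by
  rw [← card_perm]
  refine Nat.card_congr ⟨fun σ => ⟨σ.1.symm, ?_⟩, fun ρ => ⟨ρ.1.symm, ?_⟩, ?_, ?_⟩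
  · intro i j h
    have := σ.2 _ _ h
    rwa [Equiv.apply_symm_apply, Equiv.apply_symm_apply] at this
  · intro a b h
    apply ρ.2
    rwa [Equiv.apply_symm_apply, Equiv.apply_symm_apply]
  · intro σ; apply Subtype.ext; exact Equiv.symm_symm _
  · intro ρ; apply Subtype.ext; exact Equiv.symm_symm _

/-- the relation with one more pair -/
def ad {α : Type*} (R : α → α → Prop) (x y : α) : α → α → Prop :=
  fun a b => R a b ∨ (a = x ∧ b = y)

theorem prob_e {n : ℕ} (r : Fin n → Fin n → Prop) (x y : Fin n) (hxy : x ≠ y) :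
    prob r x y = (e (ad r x y) univ : ℝ) / (e r univ : ℝ) := by
  unfold prob
  rw [card_lin, ← card_lin n (ad r x y)]
  congr 2
  apply Nat.card_congr
  apply Equiv.subtypeEquivRight
  intro σ
  constructor
  · rintro ⟨h1, h2⟩ a b (h | ⟨rfl, rfl⟩)
    · exact h1 a b h
    · exact h2.le
  · intro h
    refine ⟨fun a b hab => h a b (Or.inl hab), ?_⟩
    have := h x y (Or.inr ⟨rfl, rfl⟩)
    refine lt_of_le_of_ne this ?_
    intro h3
    exact hxy (σ.injective h3)

/-- the probability, in integer labels -/
noncomputable def g (R : ℤ → ℤ → Prop) (x y : ℤ) (A : Finset ℤ) : ℝ :=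
  (e (ad R x y) A : ℝ) / (e R A : ℝ)

theorem prob_g {n : ℕ} (r : Fin n → Fin n → Prop) (R : ℤ → ℤ → Prop) (f : Fin n → ℤ)
    (hf : Function.Injective f) (h : ∀ a b, a ≠ b → (r a b ↔ R (f a) (f b)))
    (x y : Fin n) (hxy : x ≠ y) :
    prob r x y = g R (f x) (f y) (univ.image f) := by
  rw [prob_e r x y hxy]
  unfold g
  rw [e_image' (R := r) f univ (fun a _ b _ h => hf h) (fun a _ b _ hab => h a b hab),
    e_image' (R := ad r x y) f univ (fun a _ b _ h => hf h)]
  intro a _ b _ hab
  unfold ad
  rw [h a b hab]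
  constructor
  · rintro (h1 | ⟨rfl, rfl⟩)
    · exact Or.inl h1
    · exact Or.inr ⟨rfl, rfl⟩
  · rintro (h1 | ⟨h1, h2⟩)
    · exact Or.inl h1
    · exact Or.inr ⟨hf h1, hf h2⟩

/-- `g` under an isomorphism -/
theorem g_image (R S : ℤ → ℤ → Prop) (f : ℤ → ℤ) (hf : Function.Injective f) (A : Finset ℤ)
    (h : ∀ a ∈ A, ∀ b ∈ A, a ≠ b → (R a b ↔ S (f a) (f b))) (x y : ℤ) :
    g S (f x) (f y) (A.image f) = g R x y A := by
  unfold g
  rw [e_image' (R := R) f A (fun a _ b _ h => hf h) h,
    e_image' (R := ad R x y) f A (fun a _ b _ h => hf h)]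
  intro a ha b hb hab
  unfold ad
  rw [h a ha b hb hab]
  constructor
  · rintro (h1 | ⟨rfl, rfl⟩)
    · exact Or.inl h1
    · exact Or.inr ⟨rfl, rfl⟩
  · rintro (h1 | ⟨h1, h2⟩)
    · exact Or.inl h1
    · exact Or.inr ⟨hf h1, hf h2⟩

end Pool.Agent.Wit
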