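import Pool.Agent.Wit.Link

set_option autoImplicit false

/-!
# Mixing: probabilities depend on a window only
-/

namespace Pool.Agent.Wit

open Finset

/-- a strict partial order of the integers, contained in `<`, in which far elements are
comparable -/
structure Band (B : ℕ) (R : ℤ → ℤ → Prop) : Prop where
  lt : ∀ i j, R i j → i < j
  tr : ∀ i j k, R i j → R j k → R i k
  far : ∀ i j : ℤ, i + B ≤ j → R i j

/-- `A` is a down-set of `[s, ∞)` with `k - s` elements -/
structure Dn (R : ℤ → ℤ → Prop) (s k : ℤ) (A : Finset ℤ) : Prop where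
  ge : ∀ a ∈ A, s ≤ a
  dn : ∀ a ∈ A, ∀ j, s ≤ j → R j a → j ∈ A
  cd : (A.card : ℤ) = k - s

variable {B : ℕ} {R : ℤ → ℤ → Prop}

theorem Band.pos (h : Band B R) : 1 ≤ B := by
  rcases Nat.eq_zero_or_pos B with h0 | h0
  · subst h0
    have := h.lt 0 0 (h.far 0 0 (by simp))
    omega
  · exact h0

theorem Dn.mem (h : Band B R) {s k : ℤ} {A : Finset ℤ} (hA : Dn R s k A) (i : ℤ) (h1 : s ≤ i)
    (h2 : i + B ≤ k) : i ∈ A := by
  by_contra hi
  have hB := h.pos
  have hsub : A ⊆ (Ico s (i + B)).erase i := by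
    intro a ha
    rw [mem_erase, mem_Ico]
    refine ⟨?_, hA.ge a ha, ?_⟩
    · rintro rfl; exact hi ha
    · by_contra h3
      exact hi (hA.dn a ha i h1 (h.far i a (by omega)))
  have hc := card_le_card hsub
  rw [card_erase_of_mem (by rw [mem_Ico]; omega), Int.card_Ico] at hc
  have := hA.cd
  omega

theorem Dn.erase {s k : ℤ} {A : Finset ℤ} (hA : Dn R s (k + 1) A) {m : ℤ} (hm : m ∈ mx R A) :
    Dn R s k (A.erase m) := by
  refine ⟨fun a ha => hA.ge a (mem_of_mem_erase ha), ?_, ?_⟩
  · intro a ha j hj hR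
    rw [mem_erase] at ha ⊢
    refine ⟨?_, hA.dn a ha.2 j hj hR⟩
    rintro rfl
    exact (mem_mx.1 hm).2 a ha.2 ha.1 hR
  · have h1 := card_erase_add_one (mx_sub hm)
    have h2 := hA.cd
    omega

theorem Dn.Ico (h : Band B R) {s k : ℤ} (hk : s ≤ k) : Dn R s k (Ico s k) := by
  refine ⟨fun a ha => (mem_Ico.1 ha).1, ?_, ?_⟩
  · intro a ha j hj hR
    rw [mem_Ico] at ha ⊢
    have := h.lt _ _ hR
    omega
  · rw [Int.card_Ico]; omega

open Classical in
theorem inc_card (h : Band B R) (z : ℤ) (A : Finset ℤ) :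
    (A.filter (fun a => ¬ R a z ∧ ¬ R z a)).card + 1 ≤ 2 * B := by
  have hB := h.pos
  have hsub : A.filter (fun a => ¬ R a z ∧ ¬ R z a) ⊆ Finset.Ioo (z - B) (z + B) := by
    intro a ha
    rw [mem_filter] at ha
    rw [mem_Ioo]
    constructor
    · by_contra h1
      exact ha.2.1 (h.far a z (by omega))
    · by_contra h1
      exact ha.2.2 (h.far z a (by omega))
  have hc := card_le_card hsub
  rw [Int.card_Ioo] at hc
  omega

theorem e_union_le (h : Band B R) (A : Finset ℤ) : ∀ T : Finset ℤ, Disjoint A T →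
    e R (A ∪ T) ≤ (2 * B) ^ T.card * e R A := by
  classical
  intro T
  induction T using Finset.induction_on with
  | empty => intro _; simp
  | insert z T hz ih =>
    intro hd
    have h1 : z ∉ A ∪ T := by
      rw [mem_union]
      rintro (h2 | h2)
      · exact (disjoint_left.1 hd) h2 (mem_insert_self _ _)
      · exact hz h2
    have h2 : Disjoint A T := by
      apply hd.mono_right
      exact subset_insert _ _
    rw [union_insert, card_insert_of_notMem hz, pow_succ]
    calc e R (insert z (A ∪ T)) ≤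
        (((A ∪ T).filter (fun a => ¬ R a z ∧ ¬ R z a)).card + 1) * e R (A ∪ T) :=
          e_insert_le R z _ _ rfl h1
      _ ≤ (2 * B) * ((2 * B) ^ T.card * e R A) := Nat.mul_le_mul (inc_card h z _) (ih h2)
      _ = _ := by ring

open Classical in
theorem step_up (hB : Band B R) {s k : ℤ} (hk : s ≤ k) (h : Finset ℤ → ℝ)
    (hh : ∀ k' A, k < k' → Dn R s k' A → h A = ∑ m ∈ mx R A, h (A.erase m)) (M G : ℝ)
    (hM : ∀ A, Dn R s k A → h A ≤ M * e R A)
    (h0 : h (Ico s k) ≤ G * e R (Ico s k)) (hG : G ≤ M) :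
    ∀ A, Dn R s (k + B) A → h A ≤ (M - (M - G) * (1 / (2 * B) ^ B)) * e R A := by
  obtain ⟨W, hW⟩ : ∃ W : Finset ℤ → ℝ, W = fun A => if Ico s k ⊆ A then
    (e R (Ico s k) : ℝ) * e R (A \ Ico s k) else 0 := ⟨_, rfl⟩
  have hW0 : ∀ A, 0 ≤ W A := by
    intro A
    rw [hW]
    simp only
    split_ifs
    · positivity
    · exact le_refl _
  have hWp : ∀ A, Ico s k ⊆ A → W A = (e R (Ico s k) : ℝ) * e R (A \ Ico s k) := by
    intro A hA
    rw [hW]
    exact if_pos hA
  have hWn : ∀ A, ¬ Ico s k ⊆ A → W A = 0 := by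
    intro A hA
    rw [hW]
    exact if_neg hA
  have key : ∀ j : ℕ, ∀ A, Dn R s (k + j) A → h A ≤ M * e R A - (M - G) * W A := by
    intro j
    induction j with
    | zero =>
      intro A hA
      have hA' : Dn R s k A := by simpa using hA
      by_cases hs : Ico s k ⊆ A
      · have hc := hA'.cd
        have : A = Ico s k := by
          symm
          apply eq_of_subset_of_card_le hs
          rw [Int.card_Ico]
          omega
        rw [hWp A hs]
        rw [this, Finset.sdiff_self, e_empty]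
        push_cast
        linarith
      · rw [hWn A hs]
        have := hM A hA'
        linarith
    | succ j ih =>
      intro A hA
      have hA' : Dn R s (k + j + 1) A := by
        have : k + ((j + 1 : ℕ) : ℤ) = k + j + 1 := by push_cast; ring
        rwa [this] at hA
      have hc := hA'.cd
      have hne : A.Nonempty := card_pos.1 (by omega)
      rw [hh (k + j + 1) A (by omega) hA']
      have h1 : (e R A : ℝ) = ∑ m ∈ mx R A, (e R (A.erase m) : ℝ) := by
        rw [e_rec R hne]; push_cast; rfl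
      have h2 : W A ≤ ∑ m ∈ mx R A, W (A.erase m) := by
        by_cases hs : Ico s k ⊆ A
        · have hne2 : (A \ Ico s k).Nonempty := by
            apply card_pos.1
            have h3 := card_sdiff_add_card_eq_card hs
            rw [Int.card_Ico] at h3
            omega
          have h4 : (e R (A \ Ico s k) : ℝ) =
              ∑ m ∈ mx R (A \ Ico s k), (e R ((A \ Ico s k).erase m) : ℝ) := by
            rw [e_rec R hne2]; push_cast; rfl
          rw [hWp A hs, h4, mul_sum]
          have hsub : mx R (A \ Ico s k) ⊆ mx R A := by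
            intro m hm
            rw [mem_mx, mem_sdiff, mem_Ico] at hm
            rw [mem_mx]
            refine ⟨hm.1.1, ?_⟩
            intro l hl hlm hR
            by_cases hlI : l ∈ Ico s k
            · rw [mem_Ico] at hlI
              have h5 := hB.lt _ _ hR
              have h6 := hA.ge m hm.1.1
              exact hm.1.2 ⟨h6, by omega⟩
            · exact hm.2 l (mem_sdiff.2 ⟨hl, hlI⟩) hlm hR
          refine le_trans (le_of_eq ?_) (sum_le_sum_of_subset_of_nonneg hsub
            (fun m _ _ => hW0 (A.erase m)))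
          apply sum_congr rfl
          intro m hm
          have hm2 := mem_sdiff.1 (mx_sub hm)
          rw [hWp]
          · congr 3
            ext l
            simp only [mem_erase, mem_sdiff]
            tauto
          · intro l hl
            rw [mem_erase]
            refine ⟨?_, hs hl⟩
            rintro rfl
            exact hm2.2 hl
        · rw [hWn A hs]
          exact sum_nonneg (fun m _ => hW0 _)
      rw [h1, mul_sum]
      calc ∑ m ∈ mx R A, h (A.erase m)
          ≤ ∑ m ∈ mx R A, (M * e R (A.erase m) - (M - G) * W (A.erase m)) :=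
            sum_le_sum (fun m hm => ih _ (hA'.erase hm))
        _ = ∑ m ∈ mx R A, M * (e R (A.erase m) : ℝ) - (M - G) * ∑ m ∈ mx R A, W (A.erase m) := by
            rw [sum_sub_distrib, mul_sum]
        _ ≤ _ := by
            have : 0 ≤ M - G := by linarith
            have := mul_le_mul_of_nonneg_left h2 this
            linarith
  intro A hA
  have h1 := key B A hA
  have hs : Ico s k ⊆ A := by
    intro i hi
    rw [mem_Ico] at hi
    exact hA.mem hB i hi.1 (by omega)
  have hc : (A \ Ico s k).card = B := by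
    have h3 := card_sdiff_add_card_eq_card hs
    rw [Int.card_Ico] at h3
    have := hA.cd
    omega
  have h2 : (e R A : ℝ) ≤ (2 * B) ^ B * e R (Ico s k) := by
    have := e_union_le hB (Ico s k) (A \ Ico s k) disjoint_sdiff
    rw [union_sdiff_of_subset hs, hc] at this
    exact_mod_cast this
  have h3 : (1 : ℝ) ≤ e R (A \ Ico s k) := by
    have := e_pos hB.lt _ (A \ Ico s k) rfl
    exact_mod_cast this
  have hBp : (0 : ℝ) < (2 * B) ^ B := by
    have := hB.pos
    have : (1 : ℝ) ≤ B := by exact_mod_cast this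
    positivity
  have h4 : (1 / (2 * B) ^ B : ℝ) * e R A ≤ W A := by
    rw [hWp A hs]
    calc (1 / (2 * B) ^ B : ℝ) * e R A ≤ (1 / (2 * B) ^ B : ℝ) * ((2 * B) ^ B * e R (Ico s k)) :=
          mul_le_mul_of_nonneg_left h2 (by positivity)
      _ = e R (Ico s k) := by field_simp
      _ = e R (Ico s k) * 1 := (mul_one _).symm
      _ ≤ _ := mul_le_mul_of_nonneg_left h3 (by positivity)
  have h5 : 0 ≤ M - G := by linarith
  have := mul_le_mul_of_nonneg_left h4 h5
  calc h A ≤ M * e R A - (M - G) * W A := h1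
    _ ≤ M * e R A - (M - G) * ((1 / (2 * B) ^ B : ℝ) * e R A) := by linarith
    _ = _ := by ring

/-- the values of `h / e` on the down-sets at level `k` lie in an interval of length `δ` -/
def Osc (R : ℤ → ℤ → Prop) (h : Finset ℤ → ℝ) (s k : ℤ) (δ : ℝ) : Prop :=
  ∃ lo hi : ℝ, hi - lo ≤ δ ∧ ∀ A, Dn R s k A → lo * e R A ≤ h A ∧ h A ≤ hi * e R A

theorem osc_step (hB : Band B R) {s k : ℤ} (hk : s ≤ k) (h : Finset ℤ → ℝ)
    (hh : ∀ k' A, k < k' → Dn R s k' A → h A = ∑ m ∈ mx R A, h (A.erase m)) (δ : ℝ)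
    (ho : Osc R h s k δ) : Osc R h s (k + B) ((1 - 1 / (2 * B) ^ B) * δ) := by
  obtain ⟨lo, hi, h1, h2⟩ := ho
  have hI := h2 _ (Dn.Ico hB hk)
  have hep : (0 : ℝ) < e R (Ico s k) := by
    exact_mod_cast e_pos hB.lt _ (Ico s k) rfl
  obtain ⟨G, hG⟩ : ∃ G : ℝ, G = h (Ico s k) / e R (Ico s k) := ⟨_, rfl⟩
  have hG2 : h (Ico s k) = G * e R (Ico s k) := by rw [hG]; field_simp
  rw [hG2] at hI
  have hlo : lo ≤ G := le_of_mul_le_mul_right hI.1 hep
  have hhi : G ≤ hi := le_of_mul_le_mul_right hI.2 hep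
  have hBp : (1 : ℝ) ≤ (2 * B) ^ B := by
    have := hB.pos
    have : (1 : ℝ) ≤ B := by exact_mod_cast this
    apply one_le_pow₀
    linarith
  have hc : (1 / (2 * B) ^ B : ℝ) ≤ 1 := by
    rw [div_le_one (by linarith)]; exact hBp
  refine ⟨lo + (G - lo) * (1 / (2 * B) ^ B), hi - (hi - G) * (1 / (2 * B) ^ B), ?_, ?_⟩
  · have h3 : (1 - 1 / (2 * B) ^ B : ℝ) * (hi - lo) ≤ (1 - 1 / (2 * B) ^ B) * δ :=
      mul_le_mul_of_nonneg_left h1 (by linarith)
    linarith
  · intro A hA
    constructor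
    · have := step_up hB hk (fun A => - h A) (by
        intro k' A hk' hA'
        rw [sum_neg_distrib, hh k' A hk' hA']) (-lo) (-G) (by
        intro A hA
        have := (h2 A hA).1
        linarith) (by rw [hG2]; linarith) (by linarith) A hA
      linarith
    · exact step_up hB hk h hh hi G (fun A hA => (h2 A hA).2) (by rw [hG2]) hhi A hA

theorem osc_iter (hB : Band B R) {s k : ℤ} (hk : s ≤ k) (h : Finset ℤ → ℝ)
    (hh : ∀ k' A, k < k' → Dn R s k' A → h A = ∑ m ∈ mx R A, h (A.erase m))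
    (ho : Osc R h s k 1) : ∀ t : ℕ, Osc R h s (k + t * B) ((1 - 1 / (2 * B) ^ B) ^ t) := by
  intro t
  induction t with
  | zero => simpa using ho
  | succ t ih =>
    have h0 : (0 : ℤ) ≤ t * B := by positivity
    have h1 := osc_step hB (k := k + t * B) (by omega) h
      (fun k' A hk' hA => hh k' A (by omega) hA) _ ih
    have h2 : k + (t : ℤ) * B + B = k + ((t + 1 : ℕ) : ℤ) * B := by push_cast; ring
    rw [h2] at h1
    rw [pow_succ']
    exact h1

theorem osc_up {s k : ℤ} (hk : s ≤ k) (h : Finset ℤ → ℝ)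
    (hh : ∀ k' A, k < k' → Dn R s k' A → h A = ∑ m ∈ mx R A, h (A.erase m)) (lo hi : ℝ)
    (ho : ∀ A, Dn R s k A → lo * e R A ≤ h A ∧ h A ≤ hi * e R A) :
    ∀ j : ℕ, ∀ A, Dn R s (k + j) A → lo * e R A ≤ h A ∧ h A ≤ hi * e R A := by
  intro j
  induction j with
  | zero => simpa using ho
  | succ j ih =>
    intro A hA
    have hA' : Dn R s (k + j + 1) A := by
      have : k + ((j + 1 : ℕ) : ℤ) = k + j + 1 := by push_cast; ring
      rwa [this] at hA
    have hc := hA'.cd
    have hne : A.Nonempty := card_pos.1 (by omega)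
    rw [hh (k + j + 1) A (by omega) hA']
    have h1 : (e R A : ℝ) = ∑ m ∈ mx R A, (e R (A.erase m) : ℝ) := by
      rw [e_rec R hne]; push_cast; rfl
    rw [h1, mul_sum, mul_sum]
    exact ⟨sum_le_sum (fun m hm => (ih _ (hA'.erase hm)).1),
      sum_le_sum (fun m hm => (ih _ (hA'.erase hm)).2)⟩

theorem harm (hB : Band B R) (x y : ℤ) {s k : ℤ} {A : Finset ℤ} (hA : Dn R s k A)
    (hx : x + 2 * B ≤ k) (hk : s < k) :
    (e (ad R x y) A : ℝ) = ∑ m ∈ mx R A, (e (ad R x y) (A.erase m) : ℝ) := by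
  have hc := hA.cd
  have hne : A.Nonempty := card_pos.1 (by omega)
  have : mx (ad R x y) A = mx R A := by
    ext m
    rw [mem_mx, mem_mx]
    constructor
    · rintro ⟨h1, h2⟩
      exact ⟨h1, fun j hj hne hR => h2 j hj hne (Or.inl hR)⟩
    · rintro ⟨h1, h2⟩
      refine ⟨h1, ?_⟩
      rintro j hj hne (hR | ⟨rfl, rfl⟩)
      · exact h2 j hj hne hR
      · have h3 := hA.ge m h1
        have hBp := hB.pos
        have h4 : m + B ∈ A := hA.mem hB (m + B) (by omega) (by omega)
        exact h2 _ h4 (by omega) (hB.far m (m + B) (le_refl _))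
  rw [e_rec (ad R x y) hne, this]
  push_cast
  rfl

theorem ad_le (x y : ℤ) (A : Finset ℤ) :
    0 * (e R A : ℝ) ≤ (e (ad R x y) A : ℝ) ∧ (e (ad R x y) A : ℝ) ≤ 1 * e R A := by
  constructor
  · rw [zero_mul]; positivity
  · rw [one_mul]
    exact_mod_cast e_mono (fun a b h => Or.inl h) _ A rfl

theorem trunc_up (hB : Band B R) (x y : ℤ) (t : ℕ) {s k N : ℤ} (h1 : s ≤ x + 2 * B)
    (h2 : x + 2 * B + t * B ≤ k) (h3 : k ≤ N) :
    |g R x y (Ico s N) - g R x y (Ico s k)| ≤ (1 - 1 / (2 * B) ^ B) ^ t := by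
  have hh : ∀ k' A, x + 2 * B < k' → Dn R s k' A → (e (ad R x y) A : ℝ) =
      ∑ m ∈ mx R A, (e (ad R x y) (A.erase m) : ℝ) := by
    intro k' A hk' hA
    exact harm hB x y hA (by omega) (by omega)
  have h0 : Osc R (fun A => (e (ad R x y) A : ℝ)) s (x + 2 * B) 1 :=
    ⟨0, 1, by norm_num, fun A _ => ad_le x y A⟩
  obtain ⟨lo, hi, h4, h5⟩ := osc_iter hB h1 _ hh h0 t
  have ht : (0 : ℤ) ≤ t * B := by positivity
  have h6 := osc_up (by omega) _ (fun k' A hk' hA => hh k' A (by omega) hA) lo hi h5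
  have h7 : ∀ m : ℤ, x + 2 * B + t * B ≤ m → lo ≤ g R x y (Ico s m) ∧ g R x y (Ico s m) ≤ hi := by
    intro m hm
    obtain ⟨j, hj⟩ := Int.eq_ofNat_of_zero_le (show 0 ≤ m - (x + 2 * B + t * B) by omega)
    have h8 : Dn R s m (Ico s m) := Dn.Ico hB (by omega)
    have h9 : m = x + 2 * B + t * B + j := by omega
    have h10 := h6 j (Ico s m) (by rwa [← h9])
    have hep : (0 : ℝ) < e R (Ico s m) := by
      exact_mod_cast e_pos hB.lt _ (Ico s m) rfl
    unfold g
    rw [le_div_iff₀ hep, div_le_iff₀ hep]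
    exact h10
  have h8 := h7 N (by omega)
  have h9 := h7 k h2
  rw [abs_le]
  constructor <;> linarith

/-- the reversed relation -/
def ng (R : ℤ → ℤ → Prop) : ℤ → ℤ → Prop := fun i j => R (-j) (-i)

theorem Band.ng (hB : Band B R) : Band B (ng R) := by
  refine ⟨?_, ?_, ?_⟩
  · intro i j h
    have := hB.lt _ _ h
    omega
  · intro i j k h1 h2
    exact hB.tr _ _ _ h2 h1
  · intro i j h
    exact hB.far _ _ (by omega)

theorem g_ng (R : ℤ → ℤ → Prop) (x y : ℤ) (A : Finset ℤ) :
    g (ng R) (-y) (-x) (A.image (fun a => -a)) = g R x y A := by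
  unfold g
  have hinj : Set.InjOn (fun a : ℤ => -a) A := fun a _ b _ h => neg_injective h
  rw [e_image' (R := flp R) (S := ng R) (fun a : ℤ => -a) A hinj, e_flp R _ A rfl,
    e_image' (R := flp (ad R x y)) (S := ad (ng R) (-y) (-x)) (fun a : ℤ => -a) A hinj,
    e_flp _ _ A rfl]
  · intro a _ b _ _
    unfold flp ad ng
    rw [neg_neg, neg_neg, neg_inj, neg_inj]
    tauto
  · intro a _ b _ _
    unfold flp ng
    rw [neg_neg, neg_neg]

theorem trunc_down (hB : Band B R) (x y : ℤ) (t : ℕ) {s s' N : ℤ} (h1 : y ≤ N)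
    (h2 : s' + (2 * B + t * B) ≤ y) (h3 : s ≤ s') :
    |g R x y (Ico s N) - g R x y (Ico s' N)| ≤ (1 - 1 / (2 * B) ^ B) ^ t := by
  have hI : ∀ u v : ℤ, (Ico u v).image (fun a => -a) = Ico (1 - v) (1 - u) := by
    intro u v
    ext a
    simp only [mem_image, mem_Ico]
    constructor
    · rintro ⟨b, hb, rfl⟩; omega
    · intro h; exact ⟨-a, by omega, by omega⟩
  have hBp := hB.pos
  rw [← g_ng, ← g_ng R x y (Ico s' N), hI, hI]
  exact trunc_up hB.ng (-y) (-x) t (by omega) (by omega) (by omega)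

theorem window (hB : Band B R) (x y : ℤ) (t : ℕ) {s s' N' N : ℤ} (h0 : s ≤ s') (h1 : N' ≤ N)
    (h2 : s' + (2 * B + t * B) ≤ y) (h3 : x + (2 * B + t * B) ≤ N') (h4 : y ≤ N')
    (h5 : s' ≤ x) :
    |g R x y (Ico s N) - g R x y (Ico s' N')| ≤ 2 * (1 - 1 / (2 * B) ^ B) ^ t := by
  have h6 := trunc_up hB x y t (s := s) (k := N') (N := N) (by omega) (by omega) h1
  have h7 := trunc_down hB x y t (s := s) (s' := s') (N := N') h4 h2 h0
  calc _ = |(g R x y (Ico s N) - g R x y (Ico s N')) +
        (g R x y (Ico s N') - g R x y (Ico s' N'))| := by ring_nf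
    _ ≤ _ := abs_add_le _ _
    _ ≤ _ := by linarith

end Pool.Agent.Wit
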