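import Pool.Agent.Wit.Poset

set_option autoImplicit false

/-!
# Numerical bounds; the explicit statement for thin posets
-/

namespace Pool.Agent.Wit

open Finset Pool.Agent.Helper1.Balance Pool.Agent.Helper8.KS

theorem numbers {B : ℕ} (hB : 1 ≤ B) {η : ℝ} (h0 : 0 < η) (h1 : η ≤ 1 / 2) : ∃ t : ℕ,
    4 * (1 - 1 / (2 * (B : ℝ)) ^ B) ^ t ≤ η ∧
    (4 : ℝ) * 2 ^ (2 * ((t + 3) * B) * B) ≤
      (1 / η) ^ (15 * (B : ℝ) ^ 2 * (2 * (B : ℝ)) ^ B : ℝ) := by
  obtain ⟨M, hM⟩ : ∃ M : ℝ, M = (2 * (B : ℝ)) ^ B := ⟨_, rfl⟩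
  have hBR : (1 : ℝ) ≤ B := by exact_mod_cast hB
  have hM1 : 1 ≤ M := by rw [hM]; exact one_le_pow₀ (by linarith)
  rw [← hM]
  obtain ⟨l, hl⟩ : ∃ l, l = Real.log (1 / η) := ⟨_, rfl⟩
  have hη2 : 2 ≤ 1 / η := by rw [le_div_iff₀ h0]; linarith
  have hη0 : 0 < 1 / η := by positivity
  have hl2 : Real.log 2 ≤ l := by rw [hl]; exact Real.log_le_log (by norm_num) hη2
  have hlog2 := Real.log_two_gt_d9
  have hlog2' := Real.log_two_lt_d9
  have hM0 : 0 < M := by linarith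
  refine ⟨⌈M * (2 * Real.log 2 + l)⌉₊, ?_, ?_⟩
  · obtain ⟨t, ht⟩ : ∃ t : ℕ, t = ⌈M * (2 * Real.log 2 + l)⌉₊ := ⟨_, rfl⟩
    rw [← ht]
    have h2 : M * (2 * Real.log 2 + l) ≤ t := by rw [ht]; exact Nat.le_ceil _
    have h3 : (1 - 1 / M) ^ t ≤ Real.exp (-(1 / M)) ^ t := by
      apply pow_le_pow_left₀
      · have : 1 / M ≤ 1 := by rw [div_le_one hM0]; exact hM1
        linarith
      · exact Real.one_sub_le_exp_neg _
    have h4 : Real.exp (-(1 / M)) ^ t ≤ Real.exp (-(2 * Real.log 2 + l)) := by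
      rw [← Real.exp_nat_mul]
      apply Real.exp_le_exp.2
      have h5 : 2 * Real.log 2 + l ≤ t * (1 / M) := by
        rw [mul_one_div, le_div_iff₀ hM0]
        linarith
      linarith
    have h5 : Real.exp (-(2 * Real.log 2 + l)) = η / 4 := by
      rw [Real.exp_neg, Real.exp_add, hl, Real.exp_log hη0, two_mul, Real.exp_add,
        Real.exp_log (by norm_num)]
      field_simp
      norm_num
    linarith
  · obtain ⟨t, ht⟩ : ∃ t : ℕ, t = ⌈M * (2 * Real.log 2 + l)⌉₊ := ⟨_, rfl⟩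
    rw [← ht]
    have h2 : (t : ℝ) ≤ M * (2 * Real.log 2 + l) + 1 := by
      rw [ht]
      refine (Nat.ceil_lt_add_one ?_).le
      apply mul_nonneg hM0.le
      linarith
    have h3 : (t : ℝ) + 3 ≤ 9 * (M * l) := by
      have h4 : l ≤ M * l := by nlinarith
      have h5 : M * Real.log 2 ≤ M * l := mul_le_mul_of_nonneg_left hl2 hM0.le
      nlinarith
    have e1 : (4 : ℝ) * 2 ^ (2 * ((t + 3) * B) * B) =
        Real.exp (2 * Real.log 2 + (2 * (((t : ℝ) + 3) * B) * B) * Real.log 2) := by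
      rw [Real.exp_add, two_mul (Real.log 2), Real.exp_add, Real.exp_log (by norm_num)]
      have : (2 * (((t : ℝ) + 3) * B) * B) = ((2 * ((t + 3) * B) * B : ℕ) : ℝ) := by
        push_cast; ring
      rw [this, Real.exp_nat_mul, Real.exp_log (by norm_num)]
      norm_num
    have e2 : (1 / η) ^ (15 * (B : ℝ) ^ 2 * M : ℝ) = Real.exp (l * (15 * (B : ℝ) ^ 2 * M)) := by
      rw [Real.rpow_def_of_pos hη0, hl]
    rw [e1, e2]
    apply Real.exp_le_exp.2
    have hB2 : (1 : ℝ) ≤ (B : ℝ) ^ 2 := one_le_pow₀ hBR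
    have hBM : 1 ≤ (B : ℝ) ^ 2 * M := by nlinarith
    have h4 : (2 * (((t : ℝ) + 3) * B) * B) ≤ 18 * ((B : ℝ) ^ 2 * M * l) := by
      have : ((t : ℝ) + 3) * (B : ℝ) ^ 2 ≤ 9 * (M * l) * (B : ℝ) ^ 2 :=
        mul_le_mul_of_nonneg_right h3 (by positivity)
      nlinarith
    have hl0 : 0 ≤ l := by linarith
    have h5 : l ≤ (B : ℝ) ^ 2 * M * l := by nlinarith
    have h6 : (2 * (((t : ℝ) + 3) * B) * B) * Real.log 2 ≤
        18 * ((B : ℝ) ^ 2 * M * l) * 0.694 := by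
      apply mul_le_mul h4 (by linarith) (by positivity)
      have : 0 ≤ (B : ℝ) ^ 2 * M * l := by positivity
      linarith
    nlinarith

theorem hasWidth_one : HasWidth (fun a b : Fin 1 => a = b) 1 := by
  refine ⟨⟨univ, by simp, fun a _ b _ h => h⟩, fun s _ => ?_⟩
  exact (card_le_univ s).trans (by simp)

theorem balance_zero {n : ℕ} (r : Fin n → Fin n → Prop) (h : ∀ x y, r x y ∨ r y x) :
    balance r = 0 := by
  unfold balance
  have : {t : ℝ | ∃ x y : Fin n, ¬ r x y ∧ ¬ r y x ∧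
      t = min (prob r x y) (prob r y x)} = ∅ := by
    apply Set.eq_empty_of_forall_notMem
    rintro t ⟨x, y, h1, h2, _⟩
    exact (h x y).elim h1 h2
  rw [this, Real.sSup_empty]

theorem exp_ge (D : ℕ) : (15 * ((2 * D + 2 : ℕ) : ℝ) ^ 2 * (2 * ((2 * D + 2 : ℕ) : ℝ)) ^
    (2 * D + 2) : ℝ) ≤ (4 * (D : ℝ) + 4) ^ (2 * D + 6) := by
  have e1 : (2 * ((2 * D + 2 : ℕ) : ℝ)) = 4 * (D : ℝ) + 4 := by push_cast; ring
  have e2 : (((2 * D + 2 : ℕ) : ℝ)) = (4 * (D : ℝ) + 4) / 2 := by push_cast; ring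
  rw [e1, e2, show 2 * D + 6 = 4 + (2 * D + 2) by ring, pow_add (4 * (D : ℝ) + 4) 4]
  apply mul_le_mul_of_nonneg_right _ (by positivity)
  have hD : (0 : ℝ) ≤ D := Nat.cast_nonneg D
  obtain ⟨z, hz⟩ : ∃ z : ℝ, z = 4 * (D : ℝ) + 4 := ⟨_, rfl⟩
  rw [← hz]
  have hz4 : 4 ≤ z := by rw [hz]; linarith
  have h2 : 16 ≤ z ^ 2 := by nlinarith
  have : z ^ 4 = z ^ 2 * z ^ 2 := by ring
  rw [this]
  nlinarith

/-- **Thin posets.** -/
theorem thin {D n w : ℕ} (r : Fin n → Fin n → Prop) (hr : IsPoset r)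
    (hD : ∀ x, Nat.card {y : Fin n // ¬ r x y ∧ ¬ r y x} ≤ D) (hw : HasWidth r w)
    {η : ℝ} (h0 : 0 < η) (h1 : η ≤ 1 / 2) : ∃ (m : ℕ) (r' : Fin m → Fin m → Prop), m ≤ n ∧
      (m : ℝ) ≤ (1 / η) ^ ((4 * D + 4) ^ (2 * D + 6)) ∧ IsPoset r' ∧
      HasWidth r' w ∧ |balance r' - balance r| ≤ η := by
  have hη2 : 2 ≤ 1 / η := by rw [le_div_iff₀ h0]; linarith
  have hη1 : 1 ≤ 1 / η := by linarith
  rcases Nat.lt_or_ge w 2 with hw2 | hw2
  · rcases Nat.eq_zero_or_pos n with hn | hn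
    · refine ⟨n, r, le_refl _, ?_, hr, hw, ?_⟩
      · rw [hn]
        have : (0 : ℝ) ≤ (1 / η) ^ ((4 * D + 4) ^ (2 * D + 6)) := by positivity
        exact_mod_cast this
      · rw [sub_self, abs_zero]; exact h0.le
    · have hw1 : w = 1 := by
        have : 1 ≤ w := by
          have := hw.2 {(⟨0, hn⟩ : Fin n)} (by
            intro a ha b hb hne
            rw [mem_singleton] at ha hb
            exact absurd (ha.trans hb.symm) hne)
          simpa using this
        omega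
      subst hw1
      have hb : balance r = 0 := by
        apply balance_zero
        intro x y
        by_contra hcon
        push Not at hcon
        have hne : x ≠ y := by
          rintro rfl
          exact hcon.1 (hr.1 x)
        have := hw.2 {x, y} (by
          intro a ha b hb hab
          rw [mem_insert, mem_singleton] at ha hb
          rcases ha with rfl | rfl
          · rcases hb with rfl | rfl
            · exact absurd rfl hab
            · exact hcon.1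
          · rcases hb with rfl | rfl
            · exact hcon.2
            · exact absurd rfl hab)
        rw [card_pair hne] at this
        omega
      refine ⟨1, fun a b => a = b, hn, ?_, ⟨fun _ => rfl, fun _ _ _ h1 h2 => h1.trans h2,
        fun _ _ h _ => h⟩, hasWidth_one, ?_⟩
      · rw [Nat.cast_one]
        exact one_le_pow₀ hη1
      · rw [hb, balance_zero _ (fun x y => Or.inl (Subsingleton.elim x y)), sub_self, abs_zero]
        exact h0.le
  · obtain ⟨t, h2, h3⟩ := numbers (B := 2 * D + 2) (by omega) h0 h1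
    obtain ⟨m, r', hm, hm2, hp, hw', hb⟩ := thin_small t w r hr hD hw hw2
    refine ⟨m, r', hm, ?_, hp, hw', hb.trans h2⟩
    have h4 : (m : ℝ) ≤ (4 : ℝ) * 2 ^ (2 * ((t + 3) * (2 * D + 2)) * (2 * D + 2)) := by
      have : m ≤ 4 * 2 ^ (2 * ((t + 3) * (2 * D + 2)) * (2 * D + 2)) := by omega
      exact_mod_cast this
    refine h4.trans (h3.trans ?_)
    have e1 : (1 / η) ^ ((4 * D + 4) ^ (2 * D + 6)) =
        (1 / η) ^ (((4 * D + 4) ^ (2 * D + 6) : ℕ) : ℝ) := (Real.rpow_natCast _ _).symm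
    rw [e1]
    apply Real.rpow_le_rpow_of_exponent_le hη1
    have := exp_ge D
    push_cast at this ⊢
    exact this

end Pool.Agent.Wit
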