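import Pool.Agent.Wit.Splice
import Pool.Agent.Helper8.KS.KSFinal

set_option autoImplicit false

/-!
# Thin posets have small approximations
-/

namespace Pool.Agent.Wit

open Finset Pool.Agent.Helper1.Balance Pool.Agent.Helper8.KS

/-- `r` is `R` on `[0, n)`, in the labels `f` -/
structure Rl (B : ℕ) {n : ℕ} (r : Fin n → Fin n → Prop) (R : ℤ → ℤ → Prop) (f : Fin n → ℤ) :
    Prop where
  po : IsPoset r
  band : Band B R
  ch : Ch n R
  inj : Function.Injective f
  im : univ.image f = Ico (0 : ℤ) n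
  iff : ∀ a b, a ≠ b → (r a b ↔ R (f a) (f b))

variable {B n n' : ℕ} {r : Fin n → Fin n → Prop} {r' : Fin n' → Fin n' → Prop}
  {R R' : ℤ → ℤ → Prop} {f : Fin n → ℤ} {f' : Fin n' → ℤ}

theorem Rl.range (h : Rl B r R f) (a : Fin n) : 0 ≤ f a ∧ f a < n := by
  have : f a ∈ univ.image f := mem_image_of_mem f (mem_univ a)
  rwa [h.im, mem_Ico] at this

theorem Rl.surj (h : Rl B r R f) {c : ℤ} (h0 : 0 ≤ c) (h1 : c < n) : ∃ a, f a = c := by
  have : c ∈ univ.image f := by rw [h.im, mem_Ico]; exact ⟨h0, h1⟩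
  obtain ⟨a, _, ha⟩ := mem_image.1 this
  exact ⟨a, ha⟩

theorem Rl.ne (h : Rl B r R f) {x y : Fin n} (h1 : ¬ r x y) : x ≠ y := by
  rintro rfl
  exact h1 (h.po.1 x)

theorem Rl.near (h : Rl B r R f) {x y : Fin n} (h1 : ¬ r x y) (h2 : ¬ r y x) :
    -(B : ℤ) < f y - f x ∧ f y - f x < B := by
  have hne := h.ne h1
  rw [h.iff x y hne] at h1
  rw [h.iff y x hne.symm] at h2
  constructor
  · by_contra h3
    exact h2 (h.band.far _ _ (by omega))
  · by_contra h3
    exact h1 (h.band.far _ _ (by omega))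

theorem inside {m : ℤ} (hC : Ch m R) {i j : ℤ} (hne : i ≠ j) (h1 : ¬ R i j)
    (h2 : ¬ R j i) : 0 ≤ i ∧ i < m := by
  constructor
  · by_contra h3
    rcases lt_or_gt_of_ne hne with h4 | h4
    · exact h1 (hC.lo _ _ (by omega) h4)
    · exact h2 (hC.lo _ _ (by omega) h4)
  · by_contra h3
    rcases lt_or_gt_of_ne hne with h4 | h4
    · exact h1 (hC.hi _ _ (by omega) h4)
    · exact h2 (hC.hi _ _ (by omega) h4)

theorem anti_transfer (h : Rl B r R f) (h' : Rl B r' R' f') {L : ℤ} (hL : B ≤ L)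
    {s : Finset (Fin n)} (hs : IsAnti r s) (hc : 2 ≤ s.card) {a : Fin n} (ha : a ∈ s) {b' : ℤ}
    (hS : Same L R (f a) R' b') : ∃ s' : Finset (Fin n'), s'.card = s.card ∧ IsAnti r' s' := by
  have hBp := h.band.pos
  obtain ⟨φ, hφ⟩ : ∃ φ : Fin n → ℤ, φ = fun c => b' + (f c - f a) := ⟨_, rfl⟩
  have hφi : Function.Injective φ := by
    intro c1 c2 h1
    rw [hφ] at h1
    apply h.inj
    simp only at h1
    omega
  have hR : ∀ c1 ∈ s, ∀ c2 ∈ s, c1 ≠ c2 → ¬ R' (φ c1) (φ c2) := by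
    intro c1 h1 c2 h2 hne hR'
    have h3 : -(B : ℤ) < f c1 - f a ∧ f c1 - f a < B := by
      by_cases h4 : c1 = a
      · subst h4; omega
      · exact h.near (hs a ha c1 h1 (Ne.symm h4)) (hs c1 h1 a ha h4)
    rw [hφ] at hR'
    simp only at hR'
    rw [← hS (f c1 - f a) (by omega) (by omega)] at hR'
    rw [show f a + (f c1 - f a) = f c1 by ring, show f a + (f c2 - f a) = f c2 by ring,
      ← h.iff c1 c2 hne] at hR'
    exact hs c1 h1 c2 h2 hne hR'
  have hsub : s.image φ ⊆ univ.image f' := by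
    intro y hy
    obtain ⟨c, hc1, rfl⟩ := mem_image.1 hy
    rw [h'.im, mem_Ico]
    obtain ⟨c2, hc2, hne⟩ := exists_mem_ne (show 1 < s.card by omega) c
    exact inside h'.ch (i := φ c) (j := φ c2) (fun h5 => hne (hφi h5).symm)
      (hR c hc1 c2 hc2 hne.symm) (hR c2 hc2 c hc1 hne)
  obtain ⟨s', _, hs'⟩ := subset_image_iff.1 hsub
  refine ⟨s', ?_, ?_⟩
  · rw [← card_image_of_injective s' h'.inj, hs', card_image_of_injective s hφi]
  · intro c1 h1 c2 h2 hne hr
    rw [h'.iff c1 c2 hne] at hr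
    have h3 : f' c1 ∈ s.image φ := by rw [← hs']; exact mem_image_of_mem _ h1
    have h4 : f' c2 ∈ s.image φ := by rw [← hs']; exact mem_image_of_mem _ h2
    obtain ⟨d1, hd1, e1⟩ := mem_image.1 h3
    obtain ⟨d2, hd2, e2⟩ := mem_image.1 h4
    rw [← e1, ← e2] at hr
    refine hR d1 hd1 d2 hd2 ?_ hr
    rintro rfl
    exact hne (h'.inj (by rw [← e1, ← e2]))

theorem Rl.prob (h : Rl B r R f) {x y : Fin n} (hxy : x ≠ y) :
    prob r x y = g R (f x) (f y) (Ico (0 : ℤ) n) := by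
  rw [prob_g r R f h.inj h.iff x y hxy, h.im]

theorem pair_transfer (h : Rl B r R f) (h' : Rl B r' R' f') (t : ℕ) {L : ℤ}
    (hL : L = (t + 3) * B) {x y : Fin n} (h1 : ¬ r x y) (h2 : ¬ r y x) {b' : ℤ}
    (hS : Same L R (f x) R' b') : ∃ x' y' : Fin n', ¬ r' x' y' ∧ ¬ r' y' x' ∧
      |prob r x y - prob r' x' y'| ≤ 4 * (1 - 1 / (2 * B) ^ B) ^ t ∧
      |prob r y x - prob r' y' x'| ≤ 4 * (1 - 1 / (2 * B) ^ B) ^ t := by
  have hBp := h.band.pos
  have ht : (0 : ℤ) ≤ t * B := by positivity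
  have hL2 : L = 2 * B + t * B + B := by rw [hL]; ring
  have hne := h.ne h1
  have hnear := h.near h1 h2
  obtain ⟨v, hv⟩ : ∃ v, v = f y - f x := ⟨_, rfl⟩
  rw [← hv] at hnear
  have hfy : f y = f x + v := by rw [hv]; ring
  have hfne : v ≠ 0 := by
    intro h3
    apply hne
    apply h.inj
    omega
  have h3 : ¬ R' b' (b' + v) := by
    intro h4
    have := (hS 0 (by omega) (by omega) v).2 (by simpa using h4)
    rw [h.iff x y hne, hfy] at h1
    exact h1 (by simpa using this)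
  have h4 : ¬ R' (b' + v) b' := by
    intro h4
    have := (hS v (by omega) (by omega) 0).2 (by simpa using h4)
    rw [h.iff y x hne.symm, hfy] at h2
    exact h2 (by simpa using this)
  have hx' := inside h'.ch (i := b') (j := b' + v) (by omega) h3 h4
  have hy' := inside h'.ch (i := b' + v) (j := b') (by omega) h4 h3
  obtain ⟨x', hx2⟩ := h'.surj hx'.1 hx'.2
  obtain ⟨y', hy2⟩ := h'.surj hy'.1 hy'.2
  have hne' : x' ≠ y' := by
    rintro rfl
    rw [hx2] at hy2
    omega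
  have hxr := h.range x
  have hyr := h.range y
  rw [hfy] at hyr
  refine ⟨x', y', ?_, ?_, ?_, ?_⟩
  · rw [h'.iff x' y' hne', hx2, hy2]; exact h3
  · rw [h'.iff y' x' hne'.symm, hx2, hy2]; exact h4
  · rw [h.prob hne, h'.prob hne', hx2, hy2, hfy]
    have := compare h.band h'.band h.ch h'.ch t hL hS (u := 0) (v := v) (by omega) (by omega)
      hnear.1 hnear.2 (by omega) (by omega) (by omega) (by omega) (by omega) (by omega)
      (by omega) (by omega)
    simpa using this
  · rw [h.prob hne.symm, h'.prob hne'.symm, hx2, hy2, hfy]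
    have := compare h.band h'.band h.ch h'.ch t hL hS (u := v) (v := 0)
      hnear.1 hnear.2 (by omega) (by omega) (by omega) (by omega) (by omega) (by omega)
      (by omega) (by omega) (by omega) (by omega)
    simpa using this

theorem min_close {a b c d η : ℝ} (h1 : |a - c| ≤ η) (h2 : |b - d| ≤ η) :
    min a b ≤ min c d + η := by
  rw [abs_le] at h1 h2
  rcases le_total c d with h | h
  · rw [min_eq_left h]
    exact (min_le_left _ _).trans (by linarith [h1.2])
  · rw [min_eq_right h]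
    exact (min_le_right _ _).trans (by linarith [h2.2])

/-- the band representation of a thin poset -/
theorem exists_Rl {D : ℕ} (r : Fin n → Fin n → Prop) (hr : IsPoset r)
    (hD : ∀ x, Nat.card {y : Fin n // ¬ r x y ∧ ¬ r y x} ≤ D) :
    ∃ (R : ℤ → ℤ → Prop) (f : Fin n → ℤ), Rl (2 * D + 2) r R f := by
  classical
  obtain ⟨σ, hσ⟩ := LEs_nonempty r hr
  unfold LEs at hσ
  rw [mem_filter] at hσ
  have hσ := hσ.2
  obtain ⟨f, hf⟩ : ∃ f : Fin n → ℤ, f = fun a => (((σ a : Fin n) : ℕ) : ℤ) := ⟨_, rfl⟩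
  have hfa : ∀ a, f a = ((σ a : ℕ) : ℤ) := fun a => by rw [hf]
  have hinj : Function.Injective f := by
    intro a b hab
    rw [hfa, hfa] at hab
    apply σ.injective
    apply Fin.ext
    exact_mod_cast hab
  have hran : ∀ a, 0 ≤ f a ∧ f a < n := by
    intro a
    rw [hfa]
    have := (σ a).2
    omega
  have hsur : ∀ c : ℤ, 0 ≤ c → c < n → ∃ a, f a = c := by
    intro c h0 h1
    obtain ⟨k, hk⟩ := Int.eq_ofNat_of_zero_le h0
    refine ⟨σ.symm ⟨k, by omega⟩, ?_⟩
    rw [hfa, Equiv.apply_symm_apply]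
    exact hk.symm
  have hmono : ∀ a b, a ≠ b → r a b → f a < f b := by
    intro a b hne h
    have h1 := hσ a b h
    have h2 : (σ a : ℕ) ≤ σ b := h1
    have h3 : f a ≠ f b := fun h => hne (hinj h)
    rw [hfa, hfa] at h3 ⊢
    omega
  obtain ⟨R, hR⟩ : ∃ R : ℤ → ℤ → Prop, R = fun i j => i < j ∧ (i < 0 ∨ (n : ℤ) ≤ j ∨
    ∃ a b, f a = i ∧ f b = j ∧ r a b) := ⟨_, rfl⟩
  have hRi : ∀ i j, R i j ↔ i < j ∧ (i < 0 ∨ (n : ℤ) ≤ j ∨
    ∃ a b, f a = i ∧ f b = j ∧ r a b) := fun i j => by rw [hR]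
  refine ⟨R, f, hr, ⟨?_, ?_, ?_⟩, ⟨?_, ?_⟩, hinj, ?_, ?_⟩
  · intro i j h
    exact ((hRi i j).1 h).1
  · intro i j k h1 h2
    rw [hRi] at h1 h2 ⊢
    refine ⟨h1.1.trans h2.1, ?_⟩
    rcases h1.2 with h3 | h3 | ⟨a, b, h3, h4, h5⟩
    · exact Or.inl h3
    · right; left
      have := h2.1
      omega
    · rcases h2.2 with h6 | h6 | ⟨b', c, h6, h7, h8⟩
      · left
        have := h1.1
        omega
      · exact Or.inr (Or.inl h6)
      · right; right
        have : b = b' := hinj (by rw [h4, h6])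
        subst this
        exact ⟨a, c, h3, h7, hr.2.1 _ _ _ h5 h8⟩
  · intro i j hij
    rw [hRi]
    push_cast at hij
    refine ⟨by omega, ?_⟩
    by_contra hcon
    push Not at hcon
    obtain ⟨h0, h1, h2⟩ := hcon
    obtain ⟨a, ha⟩ := hsur i (by omega) (by omega)
    obtain ⟨b, hb⟩ := hsur j (by omega) (by omega)
    have hab : ¬ r a b := fun h => h2 a b ha hb h
    have hba : ¬ r b a := by
      intro h
      have hne : b ≠ a := by
        rintro rfl
        omega
      have := hmono b a hne h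
      omega
    -- the elements between
    have hcov : (Ioo i j : Finset ℤ) ⊆ (univ.filter (fun y => ¬ r a y ∧ ¬ r y a)).image f ∪
        (univ.filter (fun y => ¬ r b y ∧ ¬ r y b)).image f := by
      intro c hc
      rw [mem_Ioo] at hc
      obtain ⟨d, hd⟩ := hsur c (by omega) (by omega)
      rw [mem_union, mem_image, mem_image]
      by_cases h3 : r a d
      · right
        refine ⟨d, ?_, hd⟩
        rw [mem_filter]
        refine ⟨mem_univ _, ?_, ?_⟩
        · intro h4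
          have hne : b ≠ d := by rintro rfl; omega
          have := hmono b d hne h4
          omega
        · intro h4
          exact hab (hr.2.1 _ _ _ h3 h4)
      · left
        refine ⟨d, ?_, hd⟩
        rw [mem_filter]
        refine ⟨mem_univ _, h3, ?_⟩
        intro h4
        have hne : d ≠ a := by rintro rfl; omega
        have := hmono d a hne h4
        omega
    have hc := card_le_card hcov
    have hc2 := card_union_le ((univ.filter (fun y => ¬ r a y ∧ ¬ r y a)).image f)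
      ((univ.filter (fun y => ¬ r b y ∧ ¬ r y b)).image f)
    rw [card_image_of_injective _ hinj, card_image_of_injective _ hinj] at hc2
    have h3 : ∀ x, (univ.filter (fun y => ¬ r x y ∧ ¬ r y x)).card ≤ D := by
      intro x
      have := hD x
      rwa [Nat.card_eq_fintype_card, Fintype.card_subtype] at this
    have h4 := h3 a
    have h5 := h3 b
    rw [Int.card_Ioo] at hc
    omega
  · intro i j h1 h2
    rw [hRi]
    exact ⟨h2, Or.inl h1⟩
  · intro i j h1 h2
    rw [hRi]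
    exact ⟨h2, Or.inr (Or.inl h1)⟩
  · ext c
    rw [mem_image, mem_Ico]
    constructor
    · rintro ⟨a, _, rfl⟩
      exact hran a
    · rintro ⟨h1, h2⟩
      obtain ⟨a, ha⟩ := hsur c h1 h2
      exact ⟨a, mem_univ _, ha⟩
  · intro a b hne
    rw [hRi]
    constructor
    · intro h
      exact ⟨hmono a b hne h, Or.inr (Or.inr ⟨a, b, rfl, rfl, h⟩)⟩
    · rintro ⟨_, h | h | ⟨a', b', h1, h2, h3⟩⟩
      · have := (hran a).1
        omega
      · have := (hran b).2
        omega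
      · rw [← hinj h1, ← hinj h2]
        exact h3

/-- the poset of a banded order -/
theorem Rl_of (hB : Band B R) {m : ℕ} (hC : Ch m R) :
    Rl B (fun a b : Fin m => a = b ∨ R ((a : ℕ) : ℤ) ((b : ℕ) : ℤ)) R
      (fun a => ((a : ℕ) : ℤ)) := by
  refine ⟨⟨fun a => Or.inl rfl, ?_, ?_⟩, hB, hC, ?_, ?_, ?_⟩
  · rintro a b c (rfl | h1) (rfl | h2)
    · exact Or.inl rfl
    · exact Or.inr h2
    · exact Or.inr h1
    · exact Or.inr (hB.tr _ _ _ h1 h2)
  · rintro a b (rfl | h1) (h2 | h2)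
    · rfl
    · rfl
    · exact h2.symm
    · have := hB.lt _ _ h1
      have := hB.lt _ _ h2
      omega
  · intro a b h
    apply Fin.ext
    simp only at h
    exact_mod_cast h
  · ext c
    rw [mem_image, mem_Ico]
    constructor
    · rintro ⟨a, _, rfl⟩
      have := a.2
      omega
    · rintro ⟨h1, h2⟩
      obtain ⟨k, hk⟩ := Int.eq_ofNat_of_zero_le h1
      refine ⟨⟨k, by omega⟩, mem_univ _, ?_⟩
      exact hk.symm
  · intro a b hne
    constructor
    · rintro (h | h)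
      · exact absurd h hne
      · exact h
    · exact fun h => Or.inr h

/-- the balance constant is attained -/
theorem balance_attained (r : Fin n → Fin n → Prop) {a b : Fin n} (h1 : ¬ r a b)
    (h2 : ¬ r b a) : ∃ x y, ¬ r x y ∧ ¬ r y x ∧ balance r = min (prob r x y) (prob r y x) := by
  unfold balance
  have hfin : {t : ℝ | ∃ x y : Fin n, ¬ r x y ∧ ¬ r y x ∧
      t = min (prob r x y) (prob r y x)}.Finite := by
    apply (Set.finite_range (fun p : Fin n × Fin n =>
      min (prob r p.1 p.2) (prob r p.2 p.1))).subset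
    rintro t ⟨x, y, _, _, rfl⟩
    exact ⟨(x, y), rfl⟩
  have hne : {t : ℝ | ∃ x y : Fin n, ¬ r x y ∧ ¬ r y x ∧
      t = min (prob r x y) (prob r y x)}.Nonempty := ⟨_, a, b, h1, h2, rfl⟩
  exact hne.csSup_mem hfin

theorem thin_small {D : ℕ} (t w : ℕ) (r : Fin n → Fin n → Prop) (hr : IsPoset r)
    (hD : ∀ x, Nat.card {y : Fin n // ¬ r x y ∧ ¬ r y x} ≤ D) (hw : HasWidth r w)
    (hw2 : 2 ≤ w) : ∃ (m : ℕ) (r' : Fin m → Fin m → Prop), m ≤ n ∧
      m + 1 ≤ 4 * 2 ^ (2 * ((t + 3) * (2 * D + 2)) * (2 * D + 2)) ∧ IsPoset r' ∧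
      HasWidth r' w ∧
      |balance r' - balance r| ≤ 4 * (1 - 1 / (2 * ((2 * D + 2 : ℕ) : ℝ)) ^ (2 * D + 2)) ^ t := by
  obtain ⟨R, f, h⟩ := exists_Rl r hr hD
  obtain ⟨B, hBd⟩ : ∃ B, B = 2 * D + 2 := ⟨_, rfl⟩
  rw [← hBd] at h ⊢
  obtain ⟨L, hLd⟩ : ∃ L, L = (t + 3) * B := ⟨_, rfl⟩
  rw [← hLd]
  have hBL : B ≤ L := by
    rw [hLd]
    exact Nat.le_mul_of_pos_left _ (by omega)
  have hBLz : (B : ℤ) ≤ L := by exact_mod_cast hBL
  have hLz : (L : ℤ) = (t + 3) * B := by rw [hLd]; push_cast; ring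
  obtain ⟨⟨s, hs1, hs2⟩, hs3⟩ := hw
  obtain ⟨a, ha, a2, ha2, hne⟩ := one_lt_card.1 (show 1 < s.card by omega)
  obtain ⟨x, y, hxy, hyx, hbal⟩ := balance_attained r (hs2 a ha a2 ha2 hne)
    (hs2 a2 ha2 a ha hne.symm)
  obtain ⟨m, R', hm, hm2, hK⟩ := exists_small hBL (f a) (f x) n R
    ⟨h.band, h.ch, fun b => ⟨b, fun _ _ _ _ => Iff.rfl⟩, ⟨f a, fun _ _ _ _ => Iff.rfl⟩,
      ⟨f x, fun _ _ _ _ => Iff.rfl⟩⟩
  have h' := Rl_of hK.band hK.ch
  obtain ⟨r', hr'⟩ : ∃ r' : Fin m → Fin m → Prop, r' =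
    fun a b : Fin m => a = b ∨ R' ((a : ℕ) : ℤ) ((b : ℕ) : ℤ) := ⟨_, rfl⟩
  rw [← hr'] at h'
  refine ⟨m, r', hm, hm2, h'.po, ⟨?_, ?_⟩, ?_⟩
  · obtain ⟨b, hb⟩ := hK.k1
    obtain ⟨s', h1, h2⟩ := anti_transfer h h' hBLz hs2 (by omega) ha hb
    exact ⟨s', by omega, h2⟩
  · intro s' hs'
    by_cases hc : 2 ≤ s'.card
    · obtain ⟨c, hcs⟩ := card_pos.1 (show 0 < s'.card by omega)
      obtain ⟨b0, hb0⟩ := hK.all ((c : ℕ) : ℤ)
      obtain ⟨s2, h1, h2⟩ := anti_transfer h' h hBLz hs' hc hcs hb0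
      rw [← h1]
      exact hs3 s2 h2
    · omega
  · have hη : (0 : ℝ) ≤ 4 * (1 - 1 / (2 * (B : ℝ)) ^ B) ^ t := by
      have hBp : (1 : ℝ) ≤ (2 * B) ^ B := by
        have : 1 ≤ B := by omega
        have : (1 : ℝ) ≤ B := by exact_mod_cast this
        apply one_le_pow₀
        linarith
      have hc : (1 / (2 * B) ^ B : ℝ) ≤ 1 := by
        rw [div_le_one (by linarith)]; exact hBp
      have : (0 : ℝ) ≤ 1 - 1 / (2 * (B : ℝ)) ^ B := by linarith
      positivity
    rw [abs_le]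
    constructor
    · obtain ⟨b, hb⟩ := hK.k2
      obtain ⟨x', y', h1, h2, h3, h4⟩ := pair_transfer h h' t hLz hxy hyx hb
      have h5 := min_close h3 h4
      have h6 := min_le_balance' r' h'.po h1 h2
      rw [hbal]
      linarith
    · have : balance r' ≤ balance r + 4 * (1 - 1 / (2 * (B : ℝ)) ^ B) ^ t := by
        by_cases hex : ∃ c d, ¬ r' c d ∧ ¬ r' d c
        · obtain ⟨c, d, h1, h2⟩ := hex
          obtain ⟨x', y', h3, h4, h5⟩ := balance_attained r' h1 h2
          obtain ⟨b0, hb0⟩ := hK.all ((x' : ℕ) : ℤ)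
          obtain ⟨x2, y2, h6, h7, h8, h9⟩ := pair_transfer h' h t hLz h3 h4 hb0
          have h10 := min_close h8 h9
          have h11 := min_le_balance' r h.po h6 h7
          rw [h5]
          linarith
        · have h0 : balance r' = 0 := by
            unfold balance
            have : {t : ℝ | ∃ x y : Fin m, ¬ r' x y ∧ ¬ r' y x ∧
                t = min (Pool.Agent.Helper1.Balance.prob r' x y)
                  (Pool.Agent.Helper1.Balance.prob r' y x)} = ∅ := by
              apply Set.eq_empty_of_forall_notMem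
              rintro t ⟨x, y, h1, h2, _⟩
              exact hex ⟨x, y, h1, h2⟩
            rw [this, Real.sSup_empty]
          have := balance_nonneg r
          rw [h0]
          linarith
      linarith

end Pool.Agent.Wit
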