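import Pool.Agent.Wit.Mix

set_option autoImplicit false

/-!
# Splicing of banded orders
-/

namespace Pool.Agent.Wit

open Finset

/-- outside `[0, n)` the relation is `<` -/
structure Ch (n : ℤ) (R : ℤ → ℤ → Prop) : Prop where
  lo : ∀ i j, i < 0 → i < j → R i j
  hi : ∀ i j, n ≤ j → i < j → R i j

/-- the windows of radius `L` at `b` and at `b'` agree -/
def Same (L : ℤ) (R : ℤ → ℤ → Prop) (b : ℤ) (R' : ℤ → ℤ → Prop) (b' : ℤ) : Prop :=
  ∀ i, -L ≤ i → i < L → ∀ j, R (b + i) (b + j) ↔ R' (b' + i) (b' + j)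

theorem Same.symm {L : ℤ} {R R' : ℤ → ℤ → Prop} {b b' : ℤ} (h : Same L R b R' b') :
    Same L R' b' R b := fun i h1 h2 j => (h i h1 h2 j).symm

theorem Same.trans {L : ℤ} {R R' R'' : ℤ → ℤ → Prop} {b b' b'' : ℤ} (h : Same L R b R' b')
    (h' : Same L R' b' R'' b'') : Same L R b R'' b'' :=
  fun i h1 h2 j => (h i h1 h2 j).trans (h' i h1 h2 j)

/-- remove `[a, a + d)` -/
def sp (R : ℤ → ℤ → Prop) (a d : ℤ) : ℤ → ℤ → Prop := fun i j =>
  (i < a ∧ R i j) ∨ (a ≤ i ∧ R (i + d) (j + d))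

variable {B : ℕ} {R : ℤ → ℤ → Prop}

theorem sp_lt {a d i j : ℤ} (h : i < a) : sp R a d i j ↔ R i j := by
  unfold sp
  constructor
  · rintro (h1 | h1)
    · exact h1.2
    · omega
  · intro h1; exact Or.inl ⟨h, h1⟩

theorem sp_ge {a d i j : ℤ} (h : a ≤ i) : sp R a d i j ↔ R (i + d) (j + d) := by
  unfold sp
  constructor
  · rintro (h1 | h1)
    · omega
    · exact h1.2
  · intro h1; exact Or.inr ⟨h, h1⟩

theorem Same.shift {L a d : ℤ} (hW : Same L R a R (a + d)) {i : ℤ} (h1 : a - L ≤ i)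
    (h2 : i < a + L) (j : ℤ) : R i j ↔ R (i + d) (j + d) := by
  have := hW (i - a) (by omega) (by omega) (j - a)
  rw [show a + (i - a) = i by ring, show a + (j - a) = j by ring,
    show a + d + (i - a) = i + d by ring, show a + d + (j - a) = j + d by ring] at this
  exact this

theorem sp_band (hB : Band B R) {L a d : ℤ} (hL : B ≤ L) (hW : Same L R a R (a + d)) :
    Band B (sp R a d) := by
  refine ⟨?_, ?_, ?_⟩
  · intro i j h
    rcases h with h | h
    · exact hB.lt _ _ h.2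
    · have := hB.lt _ _ h.2
      omega
  · intro i j k h1 h2
    rcases lt_or_ge i a with hi | hi
    · rw [sp_lt hi] at h1 ⊢
      rcases lt_or_ge j a with hj | hj
      · rw [sp_lt hj] at h2
        exact hB.tr _ _ _ h1 h2
      · rw [sp_ge hj] at h2
        rcases lt_or_ge j (a + L) with hj2 | hj2
        · rw [← hW.shift (by omega) hj2] at h2
          exact hB.tr _ _ _ h1 h2
        · have := hB.lt _ _ h2
          exact hB.far _ _ (by omega)
    · have hij : i < j := by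
        rw [sp_ge hi] at h1
        have := hB.lt _ _ h1
        omega
      rw [sp_ge hi] at h1 ⊢
      rw [sp_ge (by omega)] at h2
      exact hB.tr _ _ _ h1 h2
  · intro i j h
    rcases lt_or_ge i a with hi | hi
    · rw [sp_lt hi]; exact hB.far _ _ h
    · rw [sp_ge hi]; exact hB.far _ _ (by omega)

theorem sp_ch (hB : Band B R) {n : ℤ} (hC : Ch n R) {L a d : ℤ} (hL : B ≤ L) (h0 : 0 ≤ a)
    (h1 : a + d ≤ n) (hW : Same L R a R (a + d)) : Ch (n - d) (sp R a d) := by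
  constructor
  · intro i j hi hij
    rw [sp_lt (by omega)]
    exact hC.lo _ _ hi hij
  · intro i j hj hij
    rcases lt_or_ge i a with hi | hi
    · rw [sp_lt hi]
      rcases lt_or_ge i (a - L) with hi2 | hi2
      · exact hB.far _ _ (by omega)
      · rw [hW.shift hi2 (by omega)]
        exact hC.hi _ _ (by omega) (by omega)
    · rw [sp_ge hi]
      exact hC.hi _ _ (by omega) (by omega)

theorem sp_lo {L a d : ℤ} (hW : Same L R a R (a + d)) {b : ℤ} (hb : b ≤ a) :
    Same L (sp R a d) b R b := by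
  intro i h1 h2 j
  rcases lt_or_ge (b + i) a with hi | hi
  · rw [sp_lt hi]
  · rw [sp_ge hi, ← hW.shift (by omega) (by omega)]

theorem sp_hi {L a d : ℤ} (hW : Same L R a R (a + d)) {b : ℤ} (hb : a ≤ b) :
    Same L (sp R a d) b R (b + d) := by
  intro i h1 h2 j
  have e1 : b + d + i = b + i + d := by ring
  have e2 : b + d + j = b + j + d := by ring
  rw [e1, e2]
  rcases lt_or_ge (b + i) a with hi | hi
  · rw [sp_lt hi, ← hW.shift (by omega) (by omega)]
  · rw [sp_ge hi]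

open Classical in
/-- the code of a window -/
noncomputable def code (L B : ℕ) (R : ℤ → ℤ → Prop) (b : ℤ) (p : Fin (2 * L) × Fin B) : Bool :=
  decide (R (b - L + (p.1 : ℕ)) (b - L + (p.1 : ℕ) + (p.2 : ℕ)))

theorem code_same (hB : Band B R) {L : ℕ} {b b' : ℤ} (h : code L B R b = code L B R b') :
    Same L R b R b' := by
  intro i h1 h2 j
  rcases le_or_gt j i with hj | hj
  · constructor
    · intro h3
      have := hB.lt _ _ h3
      omega
    · intro h3
      have := hB.lt _ _ h3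
      omega
  rcases le_or_gt (i + B) j with hj2 | hj2
  · exact ⟨fun _ => hB.far _ _ (by omega), fun _ => hB.far _ _ (by omega)⟩
  obtain ⟨u, hu⟩ := Int.eq_ofNat_of_zero_le (show 0 ≤ i + L by omega)
  obtain ⟨v, hv⟩ := Int.eq_ofNat_of_zero_le (show 0 ≤ j - i by omega)
  have h3 := congrFun h (⟨u, by omega⟩, ⟨v, by omega⟩)
  unfold code at h3
  rw [decide_eq_decide] at h3
  simp only at h3
  have e1 : ∀ c : ℤ, c - L + (u : ℤ) = c + i := by intro c; omega
  have e2 : ∀ c : ℤ, c - L + (u : ℤ) + (v : ℤ) = c + j := by intro c; omega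
  rw [e2, e1, e2, e1] at h3
  exact h3

/-- the data kept -/
structure Keep (B : ℕ) (L : ℤ) (R : ℤ → ℤ → Prop) (b1 b2 : ℤ) (n : ℕ) (R' : ℤ → ℤ → Prop) :
    Prop where
  band : Band B R'
  ch : Ch n R'
  all : ∀ b, ∃ b0, Same L R' b R b0
  k1 : ∃ b, Same L R b1 R' b
  k2 : ∃ b, Same L R b2 R' b

open Classical in
theorem exists_small {L : ℕ} (hL : B ≤ L) (b1 b2 : ℤ) : ∀ (n : ℕ) (R' : ℤ → ℤ → Prop),
    Keep B L R b1 b2 n R' → ∃ (m : ℕ) (R'' : ℤ → ℤ → Prop), m ≤ n ∧
      m + 1 ≤ 4 * 2 ^ (2 * L * B) ∧ Keep B L R b1 b2 m R'' := by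
  intro n
  induction n using Nat.strong_induction_on with
  | _ n ih =>
  intro R' hK
  by_cases hn : n + 1 ≤ 4 * 2 ^ (2 * L * B)
  · exact ⟨n, R', le_refl _, hn, hK⟩
  push Not at hn
  obtain ⟨c1, hc1⟩ := hK.k1
  obtain ⟨c2, hc2⟩ := hK.k2
  -- pigeonhole
  obtain ⟨F, hF⟩ : ∃ F : Fin (n + 1) → (Fin (2 * L) × Fin B → Bool) × Bool × Bool,
      F = fun i : Fin (n + 1) => (code L B R' ((i : ℕ) : ℤ), decide (c1 < ((i : ℕ) : ℤ)),
        decide (c2 < ((i : ℕ) : ℤ))) := ⟨_, rfl⟩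
  have hcard : Fintype.card ((Fin (2 * L) × Fin B → Bool) × Bool × Bool) <
      Fintype.card (Fin (n + 1)) := by
    simp only [Fintype.card_prod, Fintype.card_pi, Fintype.card_bool, prod_const, card_univ,
      Fintype.card_fin]
    omega
  obtain ⟨i, j, hij, hFij⟩ : ∃ i j : Fin (n + 1), i < j ∧ F i = F j := by
    obtain ⟨i, j, h1, h2⟩ := Fintype.exists_ne_map_eq_of_card_lt F hcard
    rcases lt_or_gt_of_ne h1 with h3 | h3
    · exact ⟨i, j, h3, h2⟩
    · exact ⟨j, i, h3, h2.symm⟩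
  rw [hF] at hFij
  simp only [Prod.mk.injEq, decide_eq_decide] at hFij
  obtain ⟨h1, h2, h3⟩ := hFij
  obtain ⟨a, ha⟩ : ∃ a : ℤ, a = ((i : ℕ) : ℤ) := ⟨_, rfl⟩
  obtain ⟨d, hd⟩ : ∃ d : ℕ, (j : ℕ) = i + d := ⟨j - i, by
    have : (i : ℕ) < j := hij
    omega⟩
  have hd0 : 0 < d := by
    have : (i : ℕ) < j := hij
    omega
  have hjn : (j : ℕ) ≤ n := by have := j.2; omega
  have hja : ((j : ℕ) : ℤ) = a + d := by rw [ha, hd]; push_cast; rfl
  rw [hja, ← ha] at h1 h2 h3
  have hW : Same L R' a R' (a + d) := code_same hK.band h1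
  have hnd : ((n - d : ℕ) : ℤ) = (n : ℤ) - d := by omega
  have hpos : ∀ c, (c < a ↔ c < a + d) → ∃ b, Same L R' c (sp R' a d) b := by
    intro c hc
    rcases lt_or_ge c a with h4 | h4
    · exact ⟨c, (sp_lo hW h4.le).symm⟩
    · refine ⟨c - d, ?_⟩
      have := (sp_hi hW (b := c - d) (by omega)).symm
      rwa [show c - d + d = c by ring] at this
  have hK' : Keep B L R b1 b2 (n - d) (sp R' a d) := by
    refine ⟨sp_band hK.band (by exact_mod_cast hL) hW, ?_, ?_, ?_, ?_⟩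
    · rw [hnd]
      exact sp_ch hK.band hK.ch (by exact_mod_cast hL) (by omega) (by omega) hW
    · intro b
      rcases le_or_gt b a with h4 | h4
      · obtain ⟨b0, hb0⟩ := hK.all b
        exact ⟨b0, (sp_lo hW h4).trans hb0⟩
      · obtain ⟨b0, hb0⟩ := hK.all (b + d)
        exact ⟨b0, (sp_hi hW h4.le).trans hb0⟩
    · obtain ⟨b, hb⟩ := hpos c1 h2
      exact ⟨b, hc1.trans hb⟩
    · obtain ⟨b, hb⟩ := hpos c2 h3
      exact ⟨b, hc2.trans hb⟩
  obtain ⟨m, R'', h5, h6, h7⟩ := ih (n - d) (by omega) _ hK'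
  exact ⟨m, R'', by omega, h6, h7⟩

theorem e_ext_hi (S : ℤ → ℤ → Prop) (s n : ℤ) (hs : s ≤ n)
    (h1 : ∀ i j, n ≤ j → i < j → S i j ∧ ¬ S j i) : ∀ k : ℕ,
    e S (Ico s (n + k)) = e S (Ico s n) := by
  intro k
  induction k with
  | zero => simp
  | succ k ih =>
    rw [← ih]
    have : Ico s (n + ((k + 1 : ℕ) : ℤ)) = insert (n + (k : ℤ)) (Ico s (n + k)) := by
      ext a
      rw [mem_insert, mem_Ico, mem_Ico]
      push_cast
      omega
    rw [this]
    apply e_top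
    · rw [mem_Ico]; omega
    · intro a ha
      rw [mem_Ico] at ha
      exact (h1 a (n + k) (by omega) ha.2).1
    · intro a ha
      rw [mem_Ico] at ha
      exact (h1 a (n + k) (by omega) ha.2).2

theorem e_ext_lo (S : ℤ → ℤ → Prop) (N : ℤ) (hN : 0 ≤ N)
    (h1 : ∀ i j, i < 0 → i < j → S i j ∧ ¬ S j i) : ∀ k : ℕ,
    e S (Ico (-(k : ℤ)) N) = e S (Ico 0 N) := by
  intro k
  induction k with
  | zero => simp
  | succ k ih =>
    rw [← ih]
    have : Ico (-((k + 1 : ℕ) : ℤ)) N = insert (-(k : ℤ) - 1) (Ico (-(k : ℤ)) N) := by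
      ext a
      rw [mem_insert, mem_Ico, mem_Ico]
      push_cast
      omega
    rw [this]
    apply e_bot
    · rw [mem_Ico]; omega
    · intro a ha
      rw [mem_Ico] at ha
      exact (h1 (-(k : ℤ) - 1) a (by omega) (by omega)).1
    · intro a ha
      rw [mem_Ico] at ha
      exact (h1 (-(k : ℤ) - 1) a (by omega) (by omega)).2

theorem g_ext (hB : Band B R) {n : ℤ} (hC : Ch n R) {x y : ℤ} (hx0 : 0 ≤ x) (hxn : x < n)
    (hy0 : 0 ≤ y) {s N : ℤ} (hs : s ≤ 0) (hN : n ≤ N) :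
    g R x y (Ico s N) = g R x y (Ico 0 n) := by
  obtain ⟨k, hk⟩ := Int.eq_ofNat_of_zero_le (show 0 ≤ N - n by omega)
  obtain ⟨l, hl⟩ := Int.eq_ofNat_of_zero_le (show 0 ≤ - s by omega)
  have e1 : N = n + k := by omega
  have e2 : s = -(l : ℤ) := by omega
  rw [e1, e2]
  unfold g
  have h1 : ∀ i j, n ≤ j → i < j → R i j ∧ ¬ R j i := by
    intro i j h2 h3
    refine ⟨hC.hi _ _ h2 h3, fun h4 => ?_⟩
    have := hB.lt _ _ h4
    omega
  have h2 : ∀ i j, i < 0 → i < j → R i j ∧ ¬ R j i := by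
    intro i j h2 h3
    refine ⟨hC.lo _ _ h2 h3, fun h4 => ?_⟩
    have := hB.lt _ _ h4
    omega
  have h3 : ∀ i j, n ≤ j → i < j → ad R x y i j ∧ ¬ ad R x y j i := by
    intro i j h4 h5
    refine ⟨Or.inl (h1 i j h4 h5).1, ?_⟩
    rintro (h6 | ⟨h6, _⟩)
    · exact (h1 i j h4 h5).2 h6
    · omega
  have h4 : ∀ i j, i < 0 → i < j → ad R x y i j ∧ ¬ ad R x y j i := by
    intro i j h4 h5
    refine ⟨Or.inl (h2 i j h4 h5).1, ?_⟩
    rintro (h6 | ⟨_, h6⟩)
    · exact (h2 i j h4 h5).2 h6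
    · omega
  rw [e_ext_hi R _ _ (by omega) h1, e_ext_hi _ _ _ (by omega) h3, e_ext_lo R _ (by omega) h2,
    e_ext_lo _ _ (by omega) h4]

theorem compare {R' : ℤ → ℤ → Prop} (hB : Band B R) (hB' : Band B R') {n n' : ℤ}
    (hC : Ch n R) (hC' : Ch n' R') (t : ℕ) {L : ℤ} (hL : L = (t + 3) * B) {b b' : ℤ}
    (hS : Same L R b R' b') {u v : ℤ} (hu1 : -B < u) (hu2 : u < B) (hv1 : -B < v) (hv2 : v < B)
    (h1 : 0 ≤ b + u) (h2 : b + u < n) (h3 : 0 ≤ b + v) (h4 : b + v < n)
    (h1' : 0 ≤ b' + u) (h2' : b' + u < n') (h3' : 0 ≤ b' + v) (h4' : b' + v < n') :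
    |g R (b + u) (b + v) (Ico 0 n) - g R' (b' + u) (b' + v) (Ico 0 n')| ≤
      4 * (1 - 1 / (2 * B) ^ B) ^ t := by
  have hL2 : L = 2 * B + t * B + B := by rw [hL]; ring
  have hbp := hB.pos
  have ht : (0 : ℤ) ≤ t * B := by positivity
  have hw1 := window hB (b + u) (b + v) t (s := min 0 (b - L)) (s' := b - L) (N' := b + L)
    (N := max n (b + L)) (min_le_right _ _) (le_max_right _ _) (by omega) (by omega) (by omega)
    (by omega)
  have hw2 := window hB' (b' + u) (b' + v) t (s := min 0 (b' - L)) (s' := b' - L) (N' := b' + L)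
    (N := max n' (b' + L)) (min_le_right _ _) (le_max_right _ _) (by omega) (by omega) (by omega)
    (by omega)
  rw [g_ext hB hC h1 h2 h3 (min_le_left _ _) (le_max_left _ _)] at hw1
  rw [g_ext hB' hC' h1' h2' h3' (min_le_left _ _) (le_max_left _ _)] at hw2
  have hg : g R' (b' + u) (b' + v) (Ico (b' - L) (b' + L)) =
      g R (b + u) (b + v) (Ico (b - L) (b + L)) := by
    have := g_image R R' (fun a => a + (b' - b)) (fun a c h => by simpa using h)
      (Ico (b - L) (b + L)) (by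
        intro a ha c _ _
        rw [mem_Ico] at ha
        have := hS (a - b) (by omega) (by omega) (c - b)
        rw [show b + (a - b) = a by ring, show b + (c - b) = c by ring] at this
        rw [this]
        rw [show b' + (a - b) = a + (b' - b) by ring, show b' + (c - b) = c + (b' - b) by ring])
      (b + u) (b + v)
    rw [← this]
    have e1 : b + u + (b' - b) = b' + u := by ring
    have e2 : b + v + (b' - b) = b' + v := by ring
    rw [e1, e2]
    congr 1
    ext a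
    simp only [mem_image, mem_Ico]
    constructor
    · intro h
      exact ⟨a - (b' - b), by omega, by omega⟩
    · rintro ⟨c, hc, rfl⟩
      omega
  rw [hg] at hw2
  rw [abs_le] at hw1 hw2 ⊢
  constructor <;> linarith [hw1.1, hw1.2, hw2.1, hw2.2]

end Pool.Agent.Wit
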